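import Pool.Agent.H43.CM.C.Ker

/-!
# JOB CM-C05c : `R[τ] ∩ τ^m R[τ⁻¹] = R + R τ + ... + R τ^m`  (C4)

Induction on `m`: `y = aeval τ p` (`mem_adj_iff`), write `p = C (p.coeff 0) + X * p'`;
`y = r0 + τ y1`, `y1 ∈ R[τ]`, and `y1 = τ⁻¹ (y - r0) = τ^(m-1) y' - τ⁻¹ r0 ∈ τ^(m-1) R[τ⁻¹]`
(`m ≥ 1`: `τ⁻¹ r0 = τ^(m-1) (τ⁻¹)^m r0`).  `m = 0` is `C1_adj`.
-/

open Polynomial

noncomputable section

namespace CMT

variable {R : Type} [CommRing R] [IsDomain R] [IsIntegrallyClosed R] {K : Type} [Field K]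
  [Algebra R K] [IsFractionRing R K]

theorem C4 (t : K) (ht : t ≠ 0) (m : ℕ) (y : K) (h1 : y ∈ adj R t)
    (h2 : ∃ y' ∈ adj R t⁻¹, y = t ^ m * y') :
    ∃ c : Fin (m + 1) → R, y = ∑ i, algebraMap R K (c i) * t ^ (i : ℕ) := by
  induction m generalizing y with
  | zero =>
    obtain ⟨y', hy', hy⟩ := h2
    rw [pow_zero, one_mul] at hy
    obtain ⟨r, hr⟩ := C1_adj (R := R) t y h1 (hy ▸ hy')
    exact ⟨fun _ => r, by simp [hr]⟩
  | succ m ih =>
    obtain ⟨y', hy', hy⟩ := h2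
    obtain ⟨p, hp'⟩ := (mem_adj_iff t y).1 h1
    have hdiv : p = Polynomial.X * p.divX + Polynomial.C (p.coeff 0) :=
      (Polynomial.X_mul_divX_add p).symm
    have hy1 : y = t * Polynomial.aeval t p.divX + algebraMap R K (p.coeff 0) := by
      have h := congrArg (Polynomial.aeval t) hdiv
      rw [map_add, map_mul, Polynomial.aeval_X, Polynomial.aeval_C] at h
      rw [← hp']
      exact h
    have hmem : Polynomial.aeval t p.divX ∈ adj R t := (mem_adj_iff t _).2 ⟨p.divX, rfl⟩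
    have hr0 : algebraMap R K (p.coeff 0) ∈ adj R t⁻¹ := Subalgebra.algebraMap_mem _ _
    have htm : t⁻¹ ^ (m + 1) ∈ adj R t⁻¹ :=
      Subalgebra.pow_mem _ (Algebra.self_mem_adjoin_singleton R t⁻¹) _
    obtain ⟨c, hc⟩ := ih (Polynomial.aeval t p.divX) hmem
      ⟨y' - t⁻¹ ^ (m + 1) * algebraMap R K (p.coeff 0),
        Subalgebra.sub_mem _ hy' (Subalgebra.mul_mem _ htm hr0), by
        have h3 : t * Polynomial.aeval t p.divX = t ^ (m + 1) * y' - algebraMap R K (p.coeff 0) := by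
          rw [← hy, hy1]
          ring
        have h4 : t * (t ^ m * (y' - t⁻¹ ^ (m + 1) * algebraMap R K (p.coeff 0))) =
            t ^ (m + 1) * y' - algebraMap R K (p.coeff 0) := by
          rw [inv_pow]
          have : t ^ (m + 1) ≠ 0 := pow_ne_zero _ ht
          field_simp
          ring
        exact mul_left_cancel₀ ht (h3.trans h4.symm)⟩
    refine ⟨Fin.cons (p.coeff 0) c, ?_⟩
    rw [Fin.sum_univ_succ, hy1, hc, Finset.mul_sum, add_comm]
    congr 1
    · simp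
    · refine Finset.sum_congr rfl fun i _ => ?_
      rw [Fin.cons_succ, Fin.val_succ, pow_succ]
      ring

end CMT
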