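import Pool.Agent.H43.CM.C.QuotInv

/-!
# JOB CM-C07 : depth of `R[τ]`  (C7)

`R` Noetherian normal domain, `n` maximal ideal with `(n, τ) ≠ R[τ]`.  `L1 := ccI ⊤ τ`.
* `dep_L1`: `Dep R n R d`, `Dep (R[τ⁻¹]) (n, τ⁻¹) (R[τ⁻¹]) d`, `d ≥ 1`, say `d = e + 1`.
  `τ⁻¹` is a nonzerodivisor of the domain `R[τ⁻¹]` (a Noetherian ring: finite type over `R`), so by
  `dep_quot`: `Dep (R[τ⁻¹]) (n, τ⁻¹) (R[τ⁻¹]/(τ⁻¹)) e`.  Let `S := R[τ⁻¹]/(τ⁻¹)`; `dep_surj` for
  `R[τ⁻¹] → S` and the ideal `n S` (its comap is `(n, τ⁻¹)`): `Dep S (nS) S e`.  `R → S` is surjective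
  with kernel `L1` (`surj3`, `ker3`).  If `L1 ≤ n`: the comap of `n S` in `R` is `n ⊔ L1 = n`, so
  `dep_surj` gives `Dep R n S e`.  If not, `n ⊔ L1 = ⊤` (n maximal), `1 = y + l`, and `y ∈ n` acts as the
  identity on `S`, so `Dep R n S e` by `dep_of_smul_eq`.  In both cases, by `dep_left` for
  `0 → L1 → R → S → 0`: `Dep R n L1 (e+1)`.
* `dep_adj`: `d = 0` is trivial (empty list).  `dep_poly` for `L1`: `Dep R[X] (n,X) (L1.map C) (d+1)`, so
  by `kerI_equiv` (b = ⊤) and `dep_congr`: `Dep R[X] (n,X) (kerI ⊤ τ) (d+1)`.  `dep_poly_self` and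
  `dep_mono`: `Dep R[X] (n,X) R[X] d`. Exact sequence `0 → kerI ⊤ τ → R[X] → R[τ] → 0` of
  `R[X]`-modules (`evT`), `dep_right`: `Dep R[X] (n,X) (R[τ]) d`.  `dep_surj` for `evT` with
  `comap_adjI`.  (`letI := (evT R t).toRingHom.toAlgebra`.)
-/

open Polynomial Pointwise

noncomputable section

namespace CMT

variable {R : Type} [CommRing R] [IsDomain R] [IsIntegrallyClosed R] [IsNoetherianRing R]
  {K : Type} [Field K] [Algebra R K] [IsFractionRing R K]

omit [IsDomain R] [IsIntegrallyClosed R] [IsNoetherianRing R] [IsFractionRing R K] in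
private theorem depAdj_map (n : Ideal R) (t : K) :
    (adjI n t).map (Ideal.Quotient.mk (Ideal.span {tt R t})) =
      n.map ((Ideal.Quotient.mk (Ideal.span {tt R t})).comp (algebraMap R (adj R t))) := by
  unfold adjI
  rw [Ideal.map_sup, Ideal.map_map, Ideal.map_span, Set.image_singleton]
  have h0 : Ideal.Quotient.mk (Ideal.span {tt R t}) (tt R t) = 0 :=
    Ideal.Quotient.eq_zero_iff_mem.2 (Ideal.subset_span rfl)
  rw [h0]
  simp

omit [IsDomain R] [IsIntegrallyClosed R] [IsNoetherianRing R] [IsFractionRing R K] in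
private theorem depAdj_comap (n : Ideal R) (t : K) :
    ((adjI n t).map (Ideal.Quotient.mk (Ideal.span {tt R t}))).comap
      (Ideal.Quotient.mk (Ideal.span {tt R t})) = adjI n t := by
  rw [Ideal.comap_map_of_surjective _ Ideal.Quotient.mk_surjective]
  have h1 : Ideal.comap (Ideal.Quotient.mk (Ideal.span {tt R t})) ⊥ = Ideal.span {tt R t} := by
    have h2 := Ideal.mk_ker (I := Ideal.span {tt R t})
    rw [RingHom.ker_eq_comap_bot] at h2
    exact h2
  rw [h1]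
  unfold adjI
  rw [sup_assoc, sup_idem]

theorem dep_L1 (n : Ideal R) [n.IsMaximal] (t : K) (ht : t ≠ 0) (e : ℕ)
    (h1 : Dep R n R (e + 1)) (h2 : Dep (adj R t⁻¹) (adjI n t⁻¹) (adj R t⁻¹) (e + 1)) :
    Dep R n (ccI (⊤ : Ideal R) t) (e + 1) := by
  haveI : IsNoetherianRing (adj R t⁻¹) :=
    isNoetherianRing_of_surjective R[X] (adj R t⁻¹) (evT R t⁻¹).toRingHom (evT_surjective t⁻¹)
  have hx0 : tt R t⁻¹ ≠ 0 := by
    intro h
    have h3 : (t⁻¹ : K) = 0 := congrArg Subtype.val h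
    exact ht (inv_eq_zero.1 h3)
  have hx : tt R t⁻¹ ∈ adjI n t⁻¹ := Ideal.mem_sup_right (Ideal.subset_span rfl)
  have hreg : IsSMulRegular (adj R t⁻¹) (tt R t⁻¹) := by
    intro a b hab
    exact mul_left_cancel₀ hx0 hab
  have h3 := dep_quot (adjI n t⁻¹) (M := adj R t⁻¹) (tt R t⁻¹) hx hreg e h2
  have hq : (tt R t⁻¹ • (⊤ : Submodule (adj R t⁻¹) (adj R t⁻¹))) = Ideal.span {tt R t⁻¹} := by
    rw [← Submodule.ideal_span_singleton_smul]
    simp
  have h4 : Dep (adj R t⁻¹) (adjI n t⁻¹) (adj R t⁻¹ ⧸ Ideal.span {tt R t⁻¹}) e :=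
    dep_congr _ (Submodule.quotEquivOfEq _ _ hq) e h3
  have h5 : Dep (adj R t⁻¹ ⧸ Ideal.span {tt R t⁻¹})
      ((adjI n t⁻¹).map (Ideal.Quotient.mk (Ideal.span {tt R t⁻¹})))
      (adj R t⁻¹ ⧸ Ideal.span {tt R t⁻¹}) e := by
    rw [← dep_surj (R := adj R t⁻¹) Ideal.Quotient.mk_surjective]
    have h6 := depAdj_comap n t⁻¹
    rw [Ideal.Quotient.algebraMap_eq, h6]
    exact h4
  have hsurj : Function.Surjective
      (algebraMap R (adj R t⁻¹ ⧸ Ideal.span {tt R t⁻¹})) := surj3 t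
  have hker : RingHom.ker (algebraMap R (adj R t⁻¹ ⧸ Ideal.span {tt R t⁻¹})) =
      ccI (⊤ : Ideal R) t := ker3 t ht
  have h7 : Dep R (n ⊔ ccI (⊤ : Ideal R) t) (adj R t⁻¹ ⧸ Ideal.span {tt R t⁻¹}) e := by
    have h8 := (dep_surj (R := R) hsurj
      ((adjI n t⁻¹).map (Ideal.Quotient.mk (Ideal.span {tt R t⁻¹})))
      (adj R t⁻¹ ⧸ Ideal.span {tt R t⁻¹}) e).2 h5
    have h9 : Ideal.comap (algebraMap R (adj R t⁻¹ ⧸ Ideal.span {tt R t⁻¹}))
        ((adjI n t⁻¹).map (Ideal.Quotient.mk (Ideal.span {tt R t⁻¹}))) =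
        n ⊔ ccI (⊤ : Ideal R) t := by
      rw [depAdj_map, ← hker, RingHom.ker_eq_comap_bot]
      exact Ideal.comap_map_of_surjective _ hsurj n
    rw [h9] at h8
    exact h8
  have h10 : Dep R n (adj R t⁻¹ ⧸ Ideal.span {tt R t⁻¹}) e := by
    by_cases hle : ccI (⊤ : Ideal R) t ≤ n
    · rw [sup_eq_left.2 hle] at h7
      exact h7
    · have htop : n ⊔ ccI (⊤ : Ideal R) t = ⊤ :=
        (Ideal.IsMaximal.out (I := n)).2 _ (left_lt_sup.2 hle)
      have h11 : (1 : R) ∈ n ⊔ ccI (⊤ : Ideal R) t := by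
        rw [htop]
        trivial
      obtain ⟨y, hy, l, hl, hyl⟩ := Submodule.mem_sup.1 h11
      refine dep_of_smul_eq n _ e y hy (fun s => ?_)
      have hl0 : algebraMap R (adj R t⁻¹ ⧸ Ideal.span {tt R t⁻¹}) l = 0 := by
        rw [← hker] at hl
        exact hl
      have h12 : algebraMap R (adj R t⁻¹ ⧸ Ideal.span {tt R t⁻¹}) y = 1 := by
        have h13 := congrArg (algebraMap R (adj R t⁻¹ ⧸ Ideal.span {tt R t⁻¹})) hyl
        rw [map_add, hl0, add_zero, map_one] at h13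
        exact h13
      exact (Algebra.smul_def y s).trans (by rw [h12, one_mul])
  haveI : Module.Finite R (adj R t⁻¹ ⧸ Ideal.span {tt R t⁻¹}) :=
    Module.Finite.of_surjective (Algebra.linearMap R (adj R t⁻¹ ⧸ Ideal.span {tt R t⁻¹})) hsurj
  refine dep_left n (ccI (⊤ : Ideal R) t).subtype
    (Algebra.linearMap R (adj R t⁻¹ ⧸ Ideal.span {tt R t⁻¹})) (Submodule.subtype_injective _)
    hsurj ?_ e h1 h10
  intro y
  rw [← hker]
  constructor
  · intro hy
    exact ⟨⟨y, hy⟩, rfl⟩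
  · rintro ⟨z, rfl⟩
    exact z.2

theorem dep_adj (n : Ideal R) [n.IsMaximal] (t : K) (ht : t ≠ 0) (hn : adjI n t ≠ ⊤) (d : ℕ)
    (h1 : Dep R n R d) (h2 : Dep (adj R t⁻¹) (adjI n t⁻¹) (adj R t⁻¹) d) :
    Dep (adj R t) (adjI n t) (adj R t) d := by
  cases d with
  | zero => exact ⟨[], rfl, by simp, RingTheory.Sequence.IsWeaklyRegular.nil _ _⟩
  | succ e =>
    have h3 := dep_L1 n t ht e h1 h2
    have h4 := dep_poly n (ccI (⊤ : Ideal R) t) (e + 1) h3
    have hrad : (⊤ : Ideal R).IsRadical := fun _ _ => trivial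
    obtain ⟨E⟩ := kerI_equiv (⊤ : Ideal R) hrad t
    have h5 := dep_congr _ E _ h4
    have h6 := dep_mono _ (dep_poly_self n (e + 1) h1) (Nat.le_succ (e + 1))
    letI : Algebra R[X] (adj R t) := (evT R t).toRingHom.toAlgebra
    have hsurj : Function.Surjective (algebraMap R[X] (adj R t)) := evT_surjective t
    have hker : RingHom.ker (algebraMap R[X] (adj R t)) = kerI (⊤ : Ideal R) t := ker_evT t
    haveI : Module.Finite R[X] (adj R t) :=
      Module.Finite.of_surjective (Algebra.linearMap R[X] (adj R t)) hsurj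
    have h7 : Dep R[X] (n.map (C : R →+* R[X]) ⊔ Ideal.span {X}) (adj R t) (e + 1) := by
      refine dep_right _ (kerI (⊤ : Ideal R) t).subtype (Algebra.linearMap R[X] (adj R t))
        (Submodule.subtype_injective _) hsurj ?_ (e + 1) h6 h5
      intro y
      rw [← hker]
      constructor
      · intro hy
        exact ⟨⟨y, hy⟩, rfl⟩
      · rintro ⟨z, rfl⟩
        exact z.2
    rw [← dep_surj (R := R[X]) hsurj]
    have h8 : (adjI n t).comap (algebraMap R[X] (adj R t)) =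
        n.map (C : R →+* R[X]) ⊔ Ideal.span {X} := comap_adjI n t hn
    rw [h8]
    exact h7

end CMT
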