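import Pool.Agent.H43.CM.Defs

/-!
# JOB CM-C01 : depth by regular sequences = vanishing of `Ext`

`R` Noetherian, `M` finite, `I` an ideal.
* If `I • ⊤ ≠ ⊤` in `M`: `ModuleCat.exists_isRegular_tfae I d (ModuleCat.of R M) (..)`, items 2 and 4
  (for `Type` the shrink of `R ⧸ I` is `R ⧸ I`; or use the lemmas
  `ModuleCat.exists_isRegular_of_exists_subsingleton_ext` and
  `ModuleCat.subsingleton_ext_of_exists_isRegular` directly with `N = R ⧸ I`,
  `Module.support R (R ⧸ I) = zeroLocus I`).  A weakly regular sequence `rs` with entries in `I` is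
  regular because `Ideal.ofList rs • ⊤ ≤ I • ⊤ ≠ ⊤`.
* If `I • ⊤ = ⊤`: by Nakayama (`Submodule.exists_mem_and_smul_eq_self_of_fg_of_le_smul`, for
  `N = ⊤`) there is `y ∈ I` with `y • m = m` for all `m : M`.  Then `List.replicate d y` is weakly
  regular (multiplication by `y` is injective on `M`, and `M / y M = 0`, everything is regular on a
  subsingleton module), so `Dep` always holds (this is `dep_of_smul_eq`); and `Ext^i(R/I, M) = 0` for
  all `i` because `y` acts on it both as `0` (since `y • (R/I) = 0`) and as the identity (since `y`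
  acts as the identity on `M`): `Ext.smul_eq_comp_mk₀`, `Ext.mk₀_smul`, compare
  `Ext.postcomp_smul_id_eq_zero_of_mem_annihilator`.
-/

open CategoryTheory Abelian
open scoped Pointwise

noncomputable section

namespace CMT

theorem depExt_wr_subsingleton {R : Type} [CommRing R] (r : R) (d : ℕ) :
    ∀ (M : Type) [AddCommGroup M] [Module R M] [Subsingleton M],
      RingTheory.Sequence.IsWeaklyRegular M (List.replicate d r) := by
  induction d with
  | zero =>
    intro M _ _ _
    exact RingTheory.Sequence.IsWeaklyRegular.nil R M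
  | succ d ih =>
    intro M _ _ _
    rw [List.replicate_succ, RingTheory.Sequence.isWeaklyRegular_cons_iff]
    refine ⟨fun a b _ => Subsingleton.elim a b, ?_⟩
    exact ih (QuotSMulTop r M)

theorem depExt_nakayama {R : Type} [CommRing R] (I : Ideal R) (M : Type) [AddCommGroup M]
    [Module R M] [Module.Finite R M] (h : I • (⊤ : Submodule R M) = ⊤) :
    ∃ y ∈ I, ∀ x : M, y • x = x := by
  obtain ⟨y, hy, h2⟩ := Submodule.exists_mem_and_smul_eq_self_of_fg_of_le_smul I
    (⊤ : Submodule R M) Module.Finite.fg_top h.ge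
  exact ⟨y, hy, fun x => h2 x Submodule.mem_top⟩

theorem depExt_support {R : Type} [CommRing R] (I : Ideal R) :
    Module.support R (ModuleCat.of R (R ⧸ I)) = PrimeSpectrum.zeroLocus (I : Set R) := by
  show Module.support R (R ⧸ I) = _
  rw [Module.support_eq_zeroLocus, Ideal.annihilator_quotient]

theorem dep_of_subsingleton {R : Type} [CommRing R] (I : Ideal R) (M : Type) [AddCommGroup M]
    [Module R M] [Subsingleton M] (d : ℕ) : Dep R I M d := by
  refine ⟨List.replicate d 0, List.length_replicate, fun r hr => ?_,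
    depExt_wr_subsingleton 0 d M⟩
  rw [List.eq_of_mem_replicate hr]
  exact I.zero_mem

theorem dep_of_smul_eq {R : Type} [CommRing R] (I : Ideal R) (M : Type) [AddCommGroup M]
    [Module R M] (d : ℕ) (y : R) (hy : y ∈ I) (h : ∀ x : M, y • x = x) : Dep R I M d := by
  refine ⟨List.replicate d y, List.length_replicate, fun r hr => ?_, ?_⟩
  · rw [List.eq_of_mem_replicate hr]
    exact hy
  · cases d with
    | zero => exact RingTheory.Sequence.IsWeaklyRegular.nil R M
    | succ d =>
      rw [List.replicate_succ, RingTheory.Sequence.isWeaklyRegular_cons_iff]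
      refine ⟨fun a b hab => ?_, ?_⟩
      · have hab' : y • a = y • b := hab
        rwa [h, h] at hab'
      · have hs : Subsingleton (QuotSMulTop y M) := by
          rw [Submodule.Quotient.subsingleton_iff, eq_top_iff]
          intro x _
          have hx : y • x ∈ y • (⊤ : Submodule R M) :=
            Submodule.smul_mem_pointwise_smul x y ⊤ Submodule.mem_top
          rwa [h] at hx
        exact depExt_wr_subsingleton y d (QuotSMulTop y M)

theorem ext_of_dep {R : Type} [CommRing R] [IsNoetherianRing R] (I : Ideal R) (M : Type)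
    [AddCommGroup M] [Module R M] [Module.Finite R M] (d : ℕ) (h : Dep R I M d) :
    ∀ i < d, Subsingleton (Ext (ModuleCat.of R (R ⧸ I)) (ModuleCat.of R M) i) := by
  obtain ⟨rs, hlen, hmem, hreg⟩ := h
  by_cases htop : I • (⊤ : Submodule R M) = ⊤
  · obtain ⟨y, hy, hyM⟩ := depExt_nakayama I M htop
    intro i _
    have key : ∀ e : Ext (ModuleCat.of R (R ⧸ I)) (ModuleCat.of R M) i, e = 0 := by
      intro e
      have h1 : y • e = e := by
        have h3 : y • 𝟙 (ModuleCat.of R M) = 𝟙 (ModuleCat.of R M) := by
          ext x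
          exact hyM x
        have h2 : y • e = e.comp (Ext.mk₀ (y • 𝟙 (ModuleCat.of R M))) (add_zero i) := by
          simp [Ext.mk₀_smul]
        rw [h2, h3, Ext.comp_mk₀_id]
      have h4 : y • 𝟙 (ModuleCat.of R (R ⧸ I)) = 0 := by
        ext
        show y • (1 : R ⧸ I) = 0
        rw [Algebra.smul_def, mul_one]
        exact Ideal.Quotient.eq_zero_iff_mem.2 hy
      have h5 : y • e = (Ext.mk₀ (y • 𝟙 (ModuleCat.of R (R ⧸ I)))).comp e (zero_add i) := by
        simp [Ext.mk₀_smul]
      rw [← h1, h5, h4]
      simp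
    exact ⟨fun a b => (key a).trans (key b).symm⟩
  · have hle : Ideal.ofList rs ≤ I := Ideal.span_le.2 fun r hr => hmem r hr
    have hle2 : Ideal.ofList rs • (⊤ : Submodule R M) ≤ I • ⊤ := Submodule.smul_mono_left hle
    have hne : (⊤ : Submodule R M) ≠ Ideal.ofList rs • ⊤ :=
      fun he => htop (top_le_iff.1 (he.le.trans hle2))
    have hr : RingTheory.Sequence.IsRegular M rs := ⟨hreg, hne⟩
    intro i hi
    exact ModuleCat.subsingleton_ext_of_exists_isRegular I (ModuleCat.of R (R ⧸ I))
      (depExt_support I).subset (ModuleCat.of R M) (lt_top_iff_ne_top.2 htop) rs hmem hr i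
      (by omega)

theorem dep_of_ext {R : Type} [CommRing R] [IsNoetherianRing R] (I : Ideal R) (M : Type)
    [AddCommGroup M] [Module R M] [Module.Finite R M] (d : ℕ)
    (h : ∀ i < d, Subsingleton (Ext (ModuleCat.of R (R ⧸ I)) (ModuleCat.of R M) i)) :
    Dep R I M d := by
  by_cases htop : I • (⊤ : Submodule R M) = ⊤
  · obtain ⟨y, hy, hyM⟩ := depExt_nakayama I M htop
    exact dep_of_smul_eq I M d y hy hyM
  · obtain ⟨rs, hlen, hmem, hreg⟩ := ModuleCat.exists_isRegular_of_exists_subsingleton_ext I d
      (ModuleCat.of R M) (lt_top_iff_ne_top.2 htop) (ModuleCat.of R (R ⧸ I)) (depExt_support I) h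
    exact ⟨rs, hlen, hmem, hreg.toIsWeaklyRegular⟩

end CMT
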