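import Pool.Agent.H43.CM.C.DepExt

/-!
# JOB CM-C02 : depth and exact sequences

Use `ext_of_dep`, `dep_of_ext` and the long exact sequence of `Ext` (`covariant_sequence_exact₁'`,
`covariant_sequence_exact₂'`, `covariant_sequence_exact₃'` of
`Mathlib.Algebra.Homology.DerivedCategory.Ext.ExactSequences`, compare their use in
`Mathlib/RingTheory/Depth/Rees.lean`): for `0 → M' → M → M'' → 0`
`Ext^(i-1)(k,M'') → Ext^i(k,M') → Ext^i(k,M)` and `Ext^i(k,M) → Ext^i(k,M'') → Ext^(i+1)(k,M')` are
exact; for `i = 0` the map `Ext^0(k,M') → Ext^0(k,M)` is injective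
(`postcomp_mk₀_injective_of_mono`).
`dep_quot`: apply `dep_right` to `0 → M → M → M/xM → 0` (`IsSMulRegular.smulShortComplex_shortExact`
or directly), with `dep_mono`.
-/

open CategoryTheory Abelian
open scoped Pointwise

noncomputable section

namespace CMT

variable {R : Type} [CommRing R] [IsNoetherianRing R] (I : Ideal R)
  {M' M M'' : Type} [AddCommGroup M'] [Module R M'] [Module.Finite R M']
  [AddCommGroup M] [Module R M] [Module.Finite R M]
  [AddCommGroup M''] [Module R M''] [Module.Finite R M'']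

omit [IsNoetherianRing R] [Module.Finite R M] in
theorem dep_mono {d d' : ℕ} (h : Dep R I M d) (hd : d' ≤ d) : Dep R I M d' := by
  obtain ⟨rs, h1, h2, h3⟩ := h
  refine ⟨rs.take d', ?_, fun r hr => h2 r (List.mem_of_mem_take hr), ?_⟩
  · rw [List.length_take, h1]
    omega
  · rw [← List.take_append_drop d' rs, RingTheory.Sequence.isWeaklyRegular_append_iff] at h3
    exact h3.1

omit [IsNoetherianRing R] [Module.Finite R M'] [Module.Finite R M] [Module.Finite R M''] in
/-- the short exact sequence in the category of modules -/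
private theorem depLes_shortExact (f : M' →ₗ[R] M) (g : M →ₗ[R] M'') (hf : Function.Injective f)
    (hg : Function.Surjective g) (hfg : Function.Exact f g) :
    ∃ w, (ShortComplex.mk (ModuleCat.ofHom f) (ModuleCat.ofHom g) w).ShortExact := by
  have w : ModuleCat.ofHom f ≫ ModuleCat.ofHom g = 0 := by
    ext x
    exact hfg.apply_apply_eq_zero x
  refine ⟨w, ?_⟩
  exact
    { exact := (ShortComplex.ShortExact.moduleCat_exact_iff_function_exact _).mpr hfg
      mono_f := (ModuleCat.mono_iff_injective _).mpr hf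
      epi_g := (ModuleCat.epi_iff_surjective _).mpr hg }

theorem dep_left (f : M' →ₗ[R] M) (g : M →ₗ[R] M'') (hf : Function.Injective f)
    (hg : Function.Surjective g) (hfg : Function.Exact f g) (d : ℕ)
    (h : Dep R I M (d + 1)) (h'' : Dep R I M'' d) : Dep R I M' (d + 1) := by
  obtain ⟨w, hS⟩ := depLes_shortExact f g hf hg hfg
  have e := ext_of_dep I M (d + 1) h
  have e'' := ext_of_dep I M'' d h''
  refine dep_of_ext I M' (d + 1) fun i hi => ?_
  refine subsingleton_of_forall_eq 0 fun x => ?_
  have h0 : x.comp (Ext.mk₀ (ModuleCat.ofHom f)) (add_zero i) = 0 :=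
    @Subsingleton.elim _ (e i hi) _ _
  cases i with
  | zero =>
    have hm : Mono (ModuleCat.ofHom f) := hS.mono_f
    refine Ext.postcomp_mk₀_injective_of_mono (ModuleCat.of R (R ⧸ I)) (ModuleCat.ofHom f) ?_
    rw [map_zero]
    exact h0
  | succ j =>
    obtain ⟨y, hy⟩ := Ext.covariant_sequence_exact₁ (ModuleCat.of R (R ⧸ I)) hS x h0
      (n₀ := j) rfl
    have hy0 : y = 0 := @Subsingleton.elim _ (e'' j (by omega)) _ _
    rw [← hy, hy0, Ext.zero_comp]

theorem dep_right (f : M' →ₗ[R] M) (g : M →ₗ[R] M'') (hf : Function.Injective f)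
    (hg : Function.Surjective g) (hfg : Function.Exact f g) (d : ℕ)
    (h : Dep R I M d) (h' : Dep R I M' (d + 1)) : Dep R I M'' d := by
  obtain ⟨w, hS⟩ := depLes_shortExact f g hf hg hfg
  have e := ext_of_dep I M d h
  have e' := ext_of_dep I M' (d + 1) h'
  refine dep_of_ext I M'' d fun i hi => ?_
  refine subsingleton_of_forall_eq 0 fun x => ?_
  obtain ⟨y, hy⟩ := Ext.covariant_sequence_exact₃ (ModuleCat.of R (R ⧸ I)) hS x
    (n₁ := i + 1) rfl (@Subsingleton.elim _ (e' (i + 1) (by omega)) _ _)
  have hy0 : y = 0 := @Subsingleton.elim _ (e i hi) _ _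
  rw [← hy, hy0, Ext.zero_comp]

theorem dep_quot (x : R) (hx : x ∈ I) (hreg : IsSMulRegular M x) (d : ℕ)
    (h : Dep R I M (d + 1)) : Dep R I (QuotSMulTop x M) d := by
  refine dep_right I (LinearMap.lsmul R M x) (Submodule.mkQ (x • (⊤ : Submodule R M))) hreg
    (Submodule.mkQ_surjective _) ?_ d (dep_mono I h (Nat.le_succ d)) h
  rw [LinearMap.exact_iff, Submodule.ker_mkQ]
  ext y
  simp only [LinearMap.mem_range, LinearMap.lsmul_apply]
  rw [Submodule.mem_smul_pointwise_iff_exists]
  simp

end CMT
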