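import Pool.Agent.H43.CM.C.DepRing

/-!
# JOB CM-C03b : depth and polynomial rings

* `dep_of_poly`: `R` Noetherian. By `dep_quot` with `x = X`: `Dep R[X] _ (QuotSMulTop X R[X]) d`, and
  `QuotSMulTop X R[X] ≃ R` (evaluation at `0`) where `R` is an `R[X]`-algebra by `f ↦ f(0)`
  (`letI := (Polynomial.evalRingHom (0 : R)).toAlgebra`), then `dep_surj`: the comap of `I` is
  `I.map C ⊔ span {X}`.
* `dep_mvPolynomial`: induction on the number of variables with `dep_poly_self`,
  `MvPolynomial.optionEquivLeft` (`Finite.induction_empty_option`), `dep_ringEquiv`.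
-/

open Polynomial
open scoped Pointwise

noncomputable section

namespace CMT

theorem depPoly_comap {R : Type} [CommRing R] (I : Ideal R) :
    I.comap (Polynomial.evalRingHom (0 : R)) = I.map (C : R →+* R[X]) ⊔ Ideal.span {X} := by
  apply le_antisymm
  · intro f hf
    rw [Ideal.mem_comap, Polynomial.coe_evalRingHom, ← Polynomial.coeff_zero_eq_eval_zero] at hf
    rw [← Polynomial.divX_mul_X_add f, add_comm]
    refine Submodule.add_mem_sup (Ideal.mem_map_of_mem _ hf) ?_
    exact Ideal.mul_mem_left _ _ (Ideal.mem_span_singleton_self X)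
  · refine sup_le ?_ ?_
    · rw [Ideal.map_le_iff_le_comap]
      intro r hr
      rw [Ideal.mem_comap, Ideal.mem_comap, Polynomial.coe_evalRingHom, Polynomial.eval_C]
      exact hr
    · rw [Ideal.span_le, Set.singleton_subset_iff, SetLike.mem_coe, Ideal.mem_comap,
        Polynomial.coe_evalRingHom, Polynomial.eval_X]
      exact I.zero_mem

theorem depPoly_ker {A R : Type} [CommRing A] [CommRing R] (φ : A →+* R)
    (hs : Function.Surjective φ) (I : Ideal R) (d : ℕ)
    (h : Dep A (I.comap φ) (A ⧸ RingHom.ker φ) d) : Dep R I R d := by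
  obtain ⟨e, he⟩ : ∃ e : (A ⧸ RingHom.ker φ) ≃+* R, ∀ a, e (Ideal.Quotient.mk _ a) = φ a :=
    ⟨RingHom.quotientKerEquivOfSurjective hs, fun a => rfl⟩
  have h3 : I.comap φ = (I.comap (e : (A ⧸ RingHom.ker φ) →+* R)).comap
      (algebraMap A (A ⧸ RingHom.ker φ)) := by
    ext a
    rw [Ideal.mem_comap, Ideal.mem_comap, Ideal.mem_comap, Ideal.Quotient.algebraMap_eq,
      RingEquiv.coe_toRingHom, he]
  rw [h3] at h
  have hs' : Function.Surjective (algebraMap A (A ⧸ RingHom.ker φ)) := by
    rw [Ideal.Quotient.algebraMap_eq]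
    exact Ideal.Quotient.mk_surjective
  have h4 := (dep_surj hs' (I.comap (e : (A ⧸ RingHom.ker φ) →+* R)) (A ⧸ RingHom.ker φ) d).1 h
  have h5 := dep_ringEquiv e _ d h4
  have h6 : (I.comap (e : (A ⧸ RingHom.ker φ) →+* R)).map (e : (A ⧸ RingHom.ker φ) →+* R) = I :=
    Ideal.map_comap_of_surjective (e : (A ⧸ RingHom.ker φ) →+* R) e.surjective I
  rwa [h6] at h5

theorem dep_of_poly {R : Type} [CommRing R] [IsNoetherianRing R] (I : Ideal R) (d : ℕ)
    (h : Dep R[X] (I.map (C : R →+* R[X]) ⊔ Ideal.span {X}) R[X] (d + 1)) : Dep R I R d := by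
  have hX : (X : R[X]) ∈ I.map (C : R →+* R[X]) ⊔ Ideal.span {X} :=
    Submodule.mem_sup_right (Ideal.mem_span_singleton_self X)
  have hreg : IsSMulRegular R[X] (X : R[X]) := by
    intro f g hfg
    have hfg' : X * f = X * g := hfg
    ext k
    have := congrArg (fun p => Polynomial.coeff p (k + 1)) hfg'
    simpa [Polynomial.coeff_X_mul] using this
  have h1 := dep_quot (I.map (C : R →+* R[X]) ⊔ Ideal.span {X}) X hX hreg d h
  have hs : Function.Surjective (Polynomial.evalRingHom (0 : R)) := by
    intro r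
    exact ⟨C r, by rw [Polynomial.coe_evalRingHom, Polynomial.eval_C]⟩
  have hker : ((X : R[X]) • (⊤ : Submodule R[X] R[X])) =
      RingHom.ker (Polynomial.evalRingHom (0 : R)) := by
    ext f
    rw [RingHom.mem_ker, Polynomial.coe_evalRingHom, Submodule.mem_smul_pointwise_iff_exists]
    constructor
    · rintro ⟨g, _, rfl⟩
      rw [smul_eq_mul, Polynomial.eval_mul, Polynomial.eval_X, zero_mul]
    · intro hf
      refine ⟨f.divX, Submodule.mem_top, ?_⟩
      rw [← Polynomial.coeff_zero_eq_eval_zero] at hf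
      have := Polynomial.X_mul_divX_add f
      rw [hf, C_0, add_zero] at this
      exact this
  have e1 : QuotSMulTop (X : R[X]) R[X] ≃ₗ[R[X]] (R[X] ⧸ RingHom.ker (Polynomial.evalRingHom (0 : R))) :=
    Submodule.quotEquivOfEq _ _ hker
  have h2 := dep_congr _ e1 d h1
  rw [← depPoly_comap I] at h2
  exact depPoly_ker _ hs I d h2

/-- polynomial rings over a field have depth `≥` the number of variables at the origin -/
theorem dep_mvPolynomial {ι : Type} [Finite ι] :
    Dep (MvPolynomial ι ℂ) (Ideal.span (Set.range (MvPolynomial.X : ι → MvPolynomial ι ℂ)))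
      (MvPolynomial ι ℂ) (Nat.card ι) := by
  induction ι using Finite.induction_empty_option with
  | @of_equiv α β e h =>
    have h1 := dep_ringEquiv (MvPolynomial.renameEquiv ℂ e).toRingEquiv _ _ h
    have h2 : (Ideal.span (Set.range (MvPolynomial.X : α → MvPolynomial α ℂ))).map
        ((MvPolynomial.renameEquiv ℂ e).toRingEquiv : MvPolynomial α ℂ →+* MvPolynomial β ℂ) =
        Ideal.span (Set.range (MvPolynomial.X : β → MvPolynomial β ℂ)) := by
      rw [Ideal.map_span, ← Set.range_comp]
      congr 1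
      ext f
      constructor
      · rintro ⟨a, rfl⟩
        exact ⟨e a, by simp⟩
      · rintro ⟨b, rfl⟩
        exact ⟨e.symm b, by simp⟩
    rw [h2, Nat.card_congr e] at h1
    exact h1
  | h_empty =>
    rw [Nat.card_eq_zero.2 (Or.inl inferInstance)]
    exact ⟨[], rfl, by simp, RingTheory.Sequence.IsWeaklyRegular.nil _ _⟩
  | @h_option α _ h =>
    have h0 := dep_poly_self _ _ h
    have h1 := dep_ringEquiv (MvPolynomial.optionEquivLeft ℂ α).symm.toRingEquiv _ _ h0
    have h2 : ((Ideal.span (Set.range (MvPolynomial.X : α → MvPolynomial α ℂ))).map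
          (C : MvPolynomial α ℂ →+* (MvPolynomial α ℂ)[X]) ⊔ Ideal.span {X}).map
        ((MvPolynomial.optionEquivLeft ℂ α).symm.toRingEquiv :
          (MvPolynomial α ℂ)[X] →+* MvPolynomial (Option α) ℂ) =
        Ideal.span (Set.range (MvPolynomial.X : Option α → MvPolynomial (Option α) ℂ)) := by
      rw [Ideal.map_sup, Ideal.map_map, Ideal.map_span, Ideal.map_span, ← Set.range_comp,
        Set.image_singleton, ← Ideal.span_union]
      congr 1
      ext f
      constructor
      · rintro (⟨a, rfl⟩ | hf)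
        · exact ⟨some a, by simp⟩
        · rw [Set.mem_singleton_iff] at hf
          exact ⟨none, by rw [hf]; simp⟩
      · rintro ⟨a, rfl⟩
        cases a with
        | none => right; simp
        | some a => left; exact ⟨a, by simp⟩
    rw [h2] at h1
    rw [Finite.card_option]
    exact h1

end CMT
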