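import Pool.Agent.H43.CM.C.DepLes

/-!
# JOB CM-C03 : depth and change of rings (elementary, with lists)

* `dep_congr`: `LinearEquiv.isWeaklyRegular_congr`.
* `dep_surj`: a list in `I ≤ S` lifts to a list in `R` (all entries in `I.comap`), and maps down;
  use `RingTheory.Sequence.isWeaklyRegular_map_algebraMap_iff`.
* `dep_ringEquiv`: map the list by `e`; `AddEquiv.isWeaklyRegular_congr` /
  `LinearEquiv.isWeaklyRegular_congr'`.
* `dep_poly`: the list `X :: rs.map C`: `X` is regular on `L.map C` (it is regular on `R[X]`), and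
  `L.map C / X (L.map C) ≃ L` by the constant coefficient (an element of `L.map C` has all its
  coefficients in `L`, `Ideal.mem_map_C_iff`; if the constant coefficient of `f ∈ L.map C` is `0`
  then `f = X * f'` with `f' = f.divX ∈ L.map C`); the action of `C r` on the quotient is the action of
  `r` on `L`.
* `dep_poly_self`: the same for `R[X]` (or `L = ⊤`).
-/

open Polynomial

noncomputable section

namespace CMT

theorem dep_congr {R : Type} [CommRing R] (I : Ideal R) {M M' : Type} [AddCommGroup M]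
    [Module R M] [AddCommGroup M'] [Module R M'] (e : M ≃ₗ[R] M') (d : ℕ) (h : Dep R I M d) :
    Dep R I M' d := by
  obtain ⟨rs, hl, hI, hr⟩ := h
  exact ⟨rs, hl, hI, (e.isWeaklyRegular_congr rs).1 hr⟩

theorem dep_surj {R S : Type} [CommRing R] [CommRing S] [Algebra R S]
    (hs : Function.Surjective (algebraMap R S)) (I : Ideal S) (M : Type) [AddCommGroup M]
    [Module R M] [Module S M] [IsScalarTower R S M] (d : ℕ) :
    Dep R (I.comap (algebraMap R S)) M d ↔ Dep S I M d := by
  constructor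
  · rintro ⟨rs, hl, hI, hr⟩
    refine ⟨rs.map (algebraMap R S), by rw [List.length_map, hl], ?_,
      (RingTheory.Sequence.isWeaklyRegular_map_algebraMap_iff S M rs).2 hr⟩
    intro s hs'
    obtain ⟨r, hr', rfl⟩ := List.mem_map.1 hs'
    exact hI r hr'
  · rintro ⟨ss, hl, hI, hr⟩
    choose g hg using hs
    have hmap : (ss.map g).map (algebraMap R S) = ss := by
      rw [List.map_map]
      conv_rhs => rw [← List.map_id ss]
      exact List.map_congr_left fun s _ => hg s
    refine ⟨ss.map g, by rw [List.length_map, hl], ?_,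
      (RingTheory.Sequence.isWeaklyRegular_map_algebraMap_iff S M (ss.map g)).1 ?_⟩
    · intro r hr'
      obtain ⟨s, hs', rfl⟩ := List.mem_map.1 hr'
      rw [Ideal.mem_comap, hg]
      exact hI s hs'
    · rw [hmap]
      exact hr

theorem dep_ringEquiv {R S : Type} [CommRing R] [CommRing S] (e : R ≃+* S) (I : Ideal R) (d : ℕ)
    (h : Dep R I R d) : Dep S (I.map (e : R →+* S)) S d := by
  obtain ⟨rs, hl, hI, hr⟩ := h
  refine ⟨rs.map e, by rw [List.length_map, hl], ?_, ?_⟩
  · intro s hs
    obtain ⟨r, hr', rfl⟩ := List.mem_map.1 hs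
    exact Ideal.mem_map_of_mem (e : R →+* S) (hI r hr')
  · refine (AddEquiv.isWeaklyRegular_congr (e := e.toAddEquiv) (as := rs) (bs := rs.map e) ?_).1 hr
    refine List.forall₂_map_right_iff.mpr (List.forall₂_same.mpr fun r _ x => ?_)
    exact map_mul e r x

theorem DepRing_cancel {R : Type} [CommRing R] (p q : R[X]) (h : X * p = X * q) : p = q := by
  ext n
  rw [← Polynomial.coeff_X_mul p n, h, Polynomial.coeff_X_mul]

open scoped Pointwise in
theorem DepRing_aux {R : Type} [CommRing R] (N : Type) [AddCommGroup N] [Module R[X] N]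
    (L : Type) [AddCommGroup L] [Module R L]
    (f : N →ₛₗ[(Polynomial.constantCoeff : R[X] →+* R)] L) (hsurj : Function.Surjective f)
    (hker : ∀ x, f x = 0 → ∃ y, x = (X : R[X]) • y) (hX : IsSMulRegular N (X : R[X])) (rs : List R)
    (h : RingTheory.Sequence.IsWeaklyRegular L rs) :
    RingTheory.Sequence.IsWeaklyRegular N ((X : R[X]) :: rs.map C) := by
  rw [RingTheory.Sequence.isWeaklyRegular_cons_iff]
  refine ⟨hX, ?_⟩
  have h0 : ((X : R[X]) • ⊤ : Submodule R[X] N) ≤ LinearMap.ker f := by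
    intro x hx
    obtain ⟨y, -, rfl⟩ := (Submodule.mem_smul_pointwise_iff_exists _ _ _).1 hx
    rw [LinearMap.mem_ker, map_smulₛₗ, Polynomial.constantCoeff_apply, Polynomial.coeff_X_zero,
      zero_smul]
  let g : QuotSMulTop (X : R[X]) N →ₛₗ[(Polynomial.constantCoeff : R[X] →+* R)] L :=
    Submodule.liftQ _ f h0
  have hg : ∀ x : N, g (Submodule.Quotient.mk x) = f x := fun x => rfl
  have hbij : Function.Bijective g.toAddMonoidHom := by
    constructor
    · rw [injective_iff_map_eq_zero]
      intro x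
      obtain ⟨x, rfl⟩ := Submodule.Quotient.mk_surjective _ x
      intro hx
      obtain ⟨y, rfl⟩ := hker x hx
      rw [Submodule.Quotient.mk_eq_zero]
      exact Submodule.smul_mem_pointwise_smul _ _ _ Submodule.mem_top
    · intro z
      obtain ⟨x, rfl⟩ := hsurj z
      exact ⟨Submodule.Quotient.mk x, rfl⟩
  refine (AddEquiv.isWeaklyRegular_congr (e := AddEquiv.ofBijective g.toAddMonoidHom hbij)
    (as := rs.map C) (bs := rs) ?_).2 h
  refine List.forall₂_map_left_iff.mpr (List.forall₂_same.mpr fun r _ x => ?_)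
  show g (C r • x) = r • g x
  rw [map_smulₛₗ, Polynomial.constantCoeff_apply, Polynomial.coeff_C_zero]

theorem DepRing_mem {R : Type} [CommRing R] (I : Ideal R) (rs : List R) (hI : ∀ r ∈ rs, r ∈ I) :
    ∀ p ∈ (X : R[X]) :: rs.map C, p ∈ I.map (C : R →+* R[X]) ⊔ Ideal.span {X} := by
  intro p hp
  rcases List.mem_cons.1 hp with rfl | hp
  · exact (le_sup_right : Ideal.span {X} ≤ _) (Ideal.mem_span_singleton_self X)
  · obtain ⟨r, hr, rfl⟩ := List.mem_map.1 hp
    exact (le_sup_left : I.map (C : R →+* R[X]) ≤ _) (Ideal.mem_map_of_mem C (hI r hr))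

theorem dep_poly {R : Type} [CommRing R] (I L : Ideal R) (d : ℕ) (h : Dep R I L d) :
    Dep R[X] (I.map (C : R →+* R[X]) ⊔ Ideal.span {X}) (L.map (C : R →+* R[X])) (d + 1) := by
  obtain ⟨rs, hl, hI, hr⟩ := h
  refine ⟨X :: rs.map C, by rw [List.length_cons, List.length_map, hl], DepRing_mem I rs hI, ?_⟩
  let f : (L.map (C : R →+* R[X])) →ₛₗ[(Polynomial.constantCoeff : R[X] →+* R)] L :=
    { toFun := fun x => ⟨(x : R[X]).coeff 0, Ideal.mem_map_C_iff.1 x.2 0⟩
      map_add' := fun x y => Subtype.ext (by simp)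
      map_smul' := fun p x => Subtype.ext (by simp [Polynomial.mul_coeff_zero]) }
  refine DepRing_aux _ _ f ?_ ?_ ?_ rs hr
  · rintro ⟨r, hr'⟩
    exact ⟨⟨C r, Ideal.mem_map_of_mem C hr'⟩, Subtype.ext (Polynomial.coeff_C_zero)⟩
  · rintro ⟨p, hp⟩ h0
    have h0' : p.coeff 0 = 0 := congrArg Subtype.val h0
    refine ⟨⟨p.divX, Ideal.mem_map_C_iff.2 fun n => ?_⟩, Subtype.ext ?_⟩
    · rw [Polynomial.coeff_divX]
      exact Ideal.mem_map_C_iff.1 hp _
    · show p = X * p.divX
      conv_lhs => rw [← Polynomial.divX_mul_X_add p, h0', map_zero, add_zero]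
      rw [mul_comm]
  · rintro ⟨p, hp⟩ ⟨q, hq⟩ hpq
    have h1 : X * p = X * q := congrArg Subtype.val hpq
    exact Subtype.ext (DepRing_cancel _ _ h1)

theorem dep_poly_self {R : Type} [CommRing R] (I : Ideal R) (d : ℕ) (h : Dep R I R d) :
    Dep R[X] (I.map (C : R →+* R[X]) ⊔ Ideal.span {X}) R[X] (d + 1) := by
  obtain ⟨rs, hl, hI, hr⟩ := h
  refine ⟨X :: rs.map C, by rw [List.length_cons, List.length_map, hl], DepRing_mem I rs hI, ?_⟩
  let f : R[X] →ₛₗ[(Polynomial.constantCoeff : R[X] →+* R)] R :=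
    { toFun := fun x => x.coeff 0
      map_add' := fun x y => by simp
      map_smul' := fun p x => by simp [Polynomial.mul_coeff_zero] }
  refine DepRing_aux _ _ f ?_ ?_ ?_ rs hr
  · intro r
    exact ⟨C r, Polynomial.coeff_C_zero⟩
  · intro p h0
    have h0' : p.coeff 0 = 0 := h0
    refine ⟨p.divX, ?_⟩
    show p = X * p.divX
    conv_lhs => rw [← Polynomial.divX_mul_X_add p, h0', map_zero, add_zero]
    rw [mul_comm]
  · intro p q hpq
    have h1 : X * p = X * q := hpq
    exact DepRing_cancel _ _ h1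

end CMT
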