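import Pool.Agent.H43.CM.C.Val

/-!
# JOB CM-C05 : `R[τ] ∩ R[τ⁻¹]`  (C1)

`R` is an integrally closed domain with fraction field `K`, `b` a radical ideal of `R` (for instance
`⊤`).
* `C1_val`: `y = aeval τ p = aeval τ⁻¹ q` with `p, q` with coefficients in `b`.  Then `y ∈ b`.
  First `y ∈ R` by `val_mem`: a valuation subring `V ⊇ R` contains `τ` or `τ⁻¹`.  So `y = r`.
  If `r ∉ b`, as `b` is radical there is a prime ideal `P ⊇ b` with `r ∉ P`
  (`Ideal.IsRadical` and `Ideal.radical_eq_sInf`).  Take a valuation subring `V` of `K` containing `R`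
  with all elements of `P` non-units of `V` and dominating `R_P`
  (`LocalSubring.exists_le_valuationSubring` applied to the local subring of `K` which is the image of
  `R_P = Localization.AtPrime P`; or `Ideal.image_subset_nonunits_valuationSubring` for the subring
  which is the image of `R_P` and its maximal ideal): the elements of `P` are in the maximal ideal
  `m_V`, the elements of `R` outside `P` are units of `V`.
  If `τ ∈ V`: `r = ∑ p_i τ^i ∈ m_V`; if `τ⁻¹ ∈ V`: `r = ∑ q_i τ^(-i) ∈ m_V`.  But `r ∉ P`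
  is a unit of `V`, contradiction.
  [Other proof, without valuations: let `M = ∑_{|i| ≤ N} R τ^i`, `N ≥ deg p, deg q`; `y M ⊆ b M`, `M` is
  finite and faithful, so `y` satisfies a monic equation with coefficients `b_i ∈ b^i`
  (`LinearMap.exists_monic_and_coeff_mem_pow_and_aeval_eq_zero_of_range_le_smul`),
  so `y ∈ R` and `y^n ∈ b`.]
* `C1_adj`: the case `b = ⊤`.
-/

open Polynomial

noncomputable section

namespace CMT

variable {R : Type} [CommRing R] [IsDomain R] [IsIntegrallyClosed R] {K : Type} [Field K]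
  [Algebra R K] [IsFractionRing R K]

/-- the module spanned by the powers `t^i`, `|i| ≤ N` -/
def Ker_mod (R : Type) [CommRing R] {K : Type} [Field K] [Algebra R K] (t : K) (N : ℕ) :
    Submodule R K :=
  Submodule.span R (Set.range fun i : Fin (2 * N + 1) => t ^ (((i : ℕ) : ℤ) - N))

omit [IsDomain R] [IsIntegrallyClosed R] [IsFractionRing R K] in
theorem Ker_mem (t : K) (N : ℕ) (k : ℤ) (h1 : -(N : ℤ) ≤ k) (h2 : k ≤ N) :
    t ^ k ∈ Ker_mod R t N := by
  refine Submodule.subset_span ⟨⟨(k + N).toNat, by omega⟩, ?_⟩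
  have : (((k + N).toNat : ℕ) : ℤ) - N = k := by omega
  show t ^ ((((k + N).toNat : ℕ) : ℤ) - N) = t ^ k
  rw [this]

omit [IsDomain R] [IsIntegrallyClosed R] [IsFractionRing R K] in
theorem Ker_le (b : Ideal R) (t y : K) (ht : t ≠ 0) (p q : R[X])
    (hp : p ∈ b.map (C : R →+* R[X])) (hq : q ∈ b.map (C : R →+* R[X]))
    (h1 : Polynomial.aeval t p = y) (h2 : Polynomial.aeval t⁻¹ q = y) (N : ℕ)
    (hpN : p.natDegree ≤ N) (hqN : q.natDegree ≤ N) (x : K) (hx : x ∈ Ker_mod R t N) :
    y * x ∈ b • Ker_mod R t N := by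
  have hle : Ker_mod R t N ≤ (b • Ker_mod R t N).comap (LinearMap.mulLeft R y) := by
    refine Submodule.span_le.2 ?_
    rintro _ ⟨i, rfl⟩
    have hi := i.2
    show y * t ^ (((i : ℕ) : ℤ) - N) ∈ b • Ker_mod R t N
    rcases le_total (((i : ℕ) : ℤ) - N) 0 with h0 | h0
    · rw [← h1, Polynomial.aeval_eq_sum_range' (Nat.lt_succ_of_le hpN), Finset.sum_mul]
      refine Submodule.sum_mem _ fun j hj => ?_
      rw [Finset.mem_range] at hj
      rw [smul_mul_assoc, ← zpow_natCast t j, ← zpow_add₀ ht]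
      exact Submodule.smul_mem_smul (Ideal.mem_map_C_iff.1 hp j)
        (Ker_mem t N _ (by omega) (by omega))
    · rw [← h2, Polynomial.aeval_eq_sum_range' (Nat.lt_succ_of_le hqN), Finset.sum_mul]
      refine Submodule.sum_mem _ fun j hj => ?_
      rw [Finset.mem_range] at hj
      rw [smul_mul_assoc, inv_pow, ← zpow_natCast t j, ← zpow_neg, ← zpow_add₀ ht]
      exact Submodule.smul_mem_smul (Ideal.mem_map_C_iff.1 hq j)
        (Ker_mem t N _ (by omega) (by omega))
  exact hle hx

theorem C1_val (b : Ideal R) (hb : b.IsRadical) (t y : K) (p q : R[X])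
    (hp : p ∈ b.map (C : R →+* R[X])) (hq : q ∈ b.map (C : R →+* R[X]))
    (h1 : Polynomial.aeval t p = y) (h2 : Polynomial.aeval t⁻¹ q = y) :
    ∃ r ∈ b, algebraMap R K r = y := by
  have hinj : Function.Injective (algebraMap R K) := IsFractionRing.injective R K
  by_cases ht : t = 0
  · refine ⟨p.coeff 0, Ideal.mem_map_C_iff.1 hp 0, ?_⟩
    rw [← h1, ht, Polynomial.coeff_zero_eq_aeval_zero']
  let N := max p.natDegree q.natDegree
  have hpN : p.natDegree ≤ N := le_max_left _ _
  have hqN : q.natDegree ≤ N := le_max_right _ _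
  let M := Ker_mod R t N
  have hM : ∀ x ∈ M, y * x ∈ b • M := Ker_le b t y ht p q hp hq h1 h2 N hpN hqN
  have hM' : ∀ x ∈ M, LinearMap.mulLeft R y x ∈ M := fun x hx => Submodule.smul_le_right (hM x hx)
  have : Module.Finite R M := Module.Finite.iff_fg.2 (Submodule.fg_span (Set.finite_range _))
  let f : Module.End R M := (LinearMap.mulLeft R y).restrict hM'
  have hf : LinearMap.range f ≤ b • ⊤ := by
    rintro _ ⟨x, rfl⟩
    rw [Submodule.mem_smul_top_iff]
    exact hM x x.2
  obtain ⟨g, hg, -, hgc, hg0⟩ :=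
    LinearMap.exists_monic_and_natDegree_eq_and_coeff_mem_pow_and_aeval_eq_zero R f b hf
  -- evaluate at one
  have hpow : ∀ (k : ℕ) (x : M), (((f ^ k) x : M) : K) = y ^ k * x := by
    intro k
    induction k with
    | zero => intro x; simp
    | succ k ih =>
      intro x
      rw [pow_succ', Module.End.mul_apply]
      show y * (((f ^ k) x : M) : K) = _
      rw [ih, pow_succ']
      ring
  have haev : ∀ (r : R[X]) (x : M), (((Polynomial.aeval f r) x : M) : K) =
      Polynomial.aeval y r * x := by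
    intro r x
    induction r using Polynomial.induction_on' with
    | add r s hr hs =>
      rw [map_add, map_add, LinearMap.add_apply, add_mul, ← hr, ← hs]
      rfl
    | monomial k c =>
      rw [Polynomial.aeval_monomial, Polynomial.aeval_monomial, Module.End.mul_apply,
        Module.algebraMap_end_apply]
      show c • (((f ^ k) x : M) : K) = _
      rw [hpow, Algebra.smul_def, mul_assoc]
  have h1M : (1 : K) ∈ M := by
    have := Ker_mem (R := R) t N 0 (by omega) (by omega)
    rwa [zpow_zero] at this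
  have hgy : Polynomial.aeval y g = 0 := by
    have h3 := haev g ⟨1, h1M⟩
    rw [hg0] at h3
    rw [mul_one] at h3
    rw [← h3]
    rfl
  have hint : IsIntegral R y := ⟨g, hg, by rw [← Polynomial.aeval_def]; exact hgy⟩
  obtain ⟨r, hr⟩ := IsIntegrallyClosed.isIntegral_iff.1 hint
  refine ⟨r, ?_, hr⟩
  have hgr : g.eval r = 0 := by
    apply hinj
    rw [map_zero, ← hgy, ← hr, Polynomial.aeval_algebraMap_apply_eq_algebraMap_eval]
  refine hb ⟨g.natDegree, ?_⟩
  rw [Polynomial.eval_eq_sum_range, Finset.sum_range_succ, hg.coeff_natDegree, one_mul] at hgr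
  rw [eq_neg_of_add_eq_zero_right hgr]
  refine neg_mem (Submodule.sum_mem _ fun i hi => ?_)
  rw [Finset.mem_range] at hi
  refine Ideal.mul_mem_right _ _ (Ideal.pow_le_self ?_ (hgc i))
  omega

theorem C1_adj (t y : K) (h1 : y ∈ adj R t) (h2 : y ∈ adj R t⁻¹) :
    ∃ r : R, algebraMap R K r = y := by
  obtain ⟨p, hp⟩ := (mem_adj_iff t y).1 h1
  obtain ⟨q, hq⟩ := (mem_adj_iff t⁻¹ y).1 h2
  obtain ⟨r, -, hr⟩ := C1_val ⊤ (fun _ _ => Submodule.mem_top) t y p q
    (by rw [Ideal.map_top]; exact Submodule.mem_top)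
    (by rw [Ideal.map_top]; exact Submodule.mem_top) hp hq
  exact ⟨r, hr⟩

end CMT
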