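import Pool.Agent.H43.CM.C.Ker

/-!
# JOB CM-C05b : the kernel of `R[X] → R[τ]`  (C2)

* `C2_coeff`: let `g ∈ R[X]` have coefficients in `b` and `g(τ) = 0`, `τ ≠ 0`.  Put
  `h_j := ∑_{i > j} g_i τ^(i-j-1)` (in `K`), so `h_j = - ∑_{i ≤ j} g_i τ^(i-j-1)`. Both expressions
  show, by `C1_val`, that `h_j` is in `b`; and `τ h_j = h_(j-1) - g_j` (with `h_(-1) = 0`), also in `b`.
  So `h = ∑ h_j X^j` has its coefficients in `ccI b τ` and `g = (X - τ) h` in `K[X]`.  For `τ = 0`:
  `g_0 = 0` and `h_j = g_(j+1)`, `ccI b 0 = b`.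
* `kerI_equiv`: for `h` with coefficients in `ccI b τ` let `r_i ∈ b` be the element with
  `r_i = h_i τ` in `K`, and map `h` to `X h - ∑ r_i X^i`.  This is `R[X]`-linear, injective (in `K[X]`
  it is multiplication by `X - τ`), with image `kerI b τ` by `C2_coeff`.
-/

open Polynomial

noncomputable section

namespace CMT

variable {R : Type} [CommRing R] [IsDomain R] [IsIntegrallyClosed R] {K : Type} [Field K]
  [Algebra R K] [IsFractionRing R K]

/-- the shifted polynomial `g_(j+1) + g_(j+2) X + ...` -/
def Ker2_sh (g : R[X]) (j : ℕ) : R[X] := Polynomial.divX^[j + 1] g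

omit [IsDomain R] [IsIntegrallyClosed R] in
theorem Ker2_sh_coeff (g : R[X]) (j n : ℕ) : (Ker2_sh g j).coeff n = g.coeff (n + j + 1) := by
  unfold Ker2_sh
  induction j generalizing n with
  | zero => simp [Polynomial.coeff_divX]
  | succ j ih =>
    rw [Function.iterate_succ_apply', Polynomial.coeff_divX, ih]
    congr 1
    ring

omit [IsDomain R] [IsIntegrallyClosed R] in
theorem Ker2_sh_zero (g : R[X]) : Ker2_sh g 0 * X + C (g.coeff 0) = g := by
  have := Polynomial.divX_mul_X_add g
  simpa [Ker2_sh] using this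

omit [IsDomain R] [IsIntegrallyClosed R] in
theorem Ker2_sh_succ (g : R[X]) (j : ℕ) :
    Ker2_sh g (j + 1) * X + C (g.coeff (j + 1)) = Ker2_sh g j := by
  have h := Polynomial.divX_mul_X_add (Ker2_sh g j)
  rw [Ker2_sh_coeff] at h
  have h1 : (Ker2_sh g j).divX = Ker2_sh g (j + 1) := by
    unfold Ker2_sh
    rw [Function.iterate_succ_apply' (n := j + 1)]
  rw [h1] at h
  simpa using h

omit [IsDomain R] [IsIntegrallyClosed R] in
theorem Ker2_sh_mem (b : Ideal R) (g : R[X]) (hg : g ∈ b.map (C : R →+* R[X])) (j : ℕ) :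
    Ker2_sh g j ∈ b.map (C : R →+* R[X]) := by
  rw [Ideal.mem_map_C_iff] at hg ⊢
  intro n
  rw [Ker2_sh_coeff]
  exact hg _

theorem Ker2_val (b : Ideal R) (hb : b.IsRadical) (t : K) (g : R[X]) (hg : g ∈ kerI b t) (j : ℕ) :
    ∃ c ∈ b, algebraMap R K c = aeval t (Ker2_sh g j) := by
  obtain ⟨hg1, hg2⟩ := hg
  have hg2' : aeval t g = 0 := hg2
  have hgc := (Ideal.mem_map_C_iff.mp hg1)
  by_cases ht : t = 0
  · refine ⟨g.coeff (j + 1), hgc _, ?_⟩
    rw [← Ker2_sh_succ g j, map_add, map_mul, aeval_X, aeval_C, ht, mul_zero, zero_add]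
  · have hq : ∀ j, ∃ q ∈ b.map (C : R →+* R[X]), aeval t⁻¹ q = aeval t (Ker2_sh g j) := by
      intro j
      induction j with
      | zero =>
        refine ⟨-(C (g.coeff 0) * X), ?_, ?_⟩
        · exact neg_mem (Ideal.mul_mem_right _ _ (Ideal.mem_map_of_mem _ (hgc 0)))
        · have h := congrArg (aeval t) (Ker2_sh_zero g)
          rw [map_add, map_mul, aeval_X, aeval_C, hg2'] at h
          rw [map_neg, map_mul, aeval_X, aeval_C]
          field_simp
          linear_combination -h
      | succ j ih =>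
        obtain ⟨q, hq, hq'⟩ := ih
        refine ⟨(q - C (g.coeff (j + 1))) * X, ?_, ?_⟩
        · exact Ideal.mul_mem_right _ _ (sub_mem hq (Ideal.mem_map_of_mem _ (hgc (j + 1))))
        · have h := congrArg (aeval t) (Ker2_sh_succ g j)
          rw [map_add, map_mul, aeval_X, aeval_C] at h
          rw [map_mul, map_sub, aeval_X, aeval_C, hq']
          field_simp
          linear_combination -h
    obtain ⟨q, hq1, hq2⟩ := hq j
    exact C1_val b hb t _ (Ker2_sh g j) q (Ker2_sh_mem b g hg1 j) hq1 rfl hq2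

theorem C2_coeff (b : Ideal R) (hb : b.IsRadical) (t : K) (g : R[X]) (hg : g ∈ kerI b t) :
    ∃ h ∈ (ccI b t).map (C : R →+* R[X]),
      g.map (algebraMap R K) = (X - C t) * h.map (algebraMap R K) := by
  have hv := Ker2_val b hb t g hg
  choose c hc hc' using hv
  obtain ⟨hg1, hg2⟩ := hg
  have hg2' : aeval t g = 0 := hg2
  have hgc := (Ideal.mem_map_C_iff.mp hg1)
  have hinj : Function.Injective (algebraMap R K) := IsFractionRing.injective R K
  have e0 : algebraMap R K (c 0) * t + algebraMap R K (g.coeff 0) = 0 := by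
    have h := congrArg (aeval t) (Ker2_sh_zero g)
    rw [map_add, map_mul, aeval_X, aeval_C, hg2', ← hc'] at h
    exact h
  have e1 : ∀ j, algebraMap R K (c (j + 1)) * t + algebraMap R K (g.coeff (j + 1))
      = algebraMap R K (c j) := by
    intro j
    have h := congrArg (aeval t) (Ker2_sh_succ g j)
    rw [map_add, map_mul, aeval_X, aeval_C, ← hc', ← hc'] at h
    exact h
  have hcz : ∀ j, g.natDegree ≤ j → c j = 0 := by
    intro j hj
    apply hinj
    rw [hc', map_zero]
    have : Ker2_sh g j = 0 := by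
      ext n
      rw [Ker2_sh_coeff, coeff_zero]
      apply coeff_eq_zero_of_natDegree_lt
      omega
    rw [this, map_zero]
  set h : R[X] := ∑ j ∈ Finset.range g.natDegree, monomial j (c j) with hh
  have hcoef : ∀ j, h.coeff j = c j := by
    intro j
    rw [hh, finsetSum_coeff]
    simp only [coeff_monomial]
    rw [Finset.sum_ite_eq']
    split_ifs with h1
    · rfl
    · rw [Finset.mem_range, not_lt] at h1
      exact (hcz j h1).symm
  refine ⟨h, ?_, ?_⟩
  · rw [Ideal.mem_map_C_iff]
    intro j
    rw [hcoef]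
    refine ⟨hc j, ?_⟩
    cases j with
    | zero =>
      refine ⟨-(g.coeff 0), neg_mem (hgc 0), ?_⟩
      rw [map_neg]
      linear_combination -e0
    | succ j =>
      refine ⟨c j - g.coeff (j + 1), sub_mem (hc j) (hgc _), ?_⟩
      rw [map_sub]
      linear_combination -(e1 j)
  · ext j
    rw [sub_mul, coeff_sub, coeff_C_mul, coeff_map, coeff_map, hcoef]
    cases j with
    | zero =>
      rw [coeff_X_mul_zero]
      linear_combination e0
    | succ j =>
      rw [coeff_X_mul, coeff_map, hcoef]
      linear_combination e1 j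

theorem Ker2_exists (b : Ideal R) (t : K) (h : R[X]) (hh : h ∈ (ccI b t).map (C : R →+* R[X])) :
    ∃ g ∈ kerI b t, g.map (algebraMap R K) = (X - C t) * h.map (algebraMap R K) := by
  have hc := Ideal.mem_map_C_iff.mp hh
  have h2 : ∀ n, ∃ r ∈ b, algebraMap R K r = algebraMap R K (h.coeff n) * t := fun n => (hc n).2
  choose r hr hr' using h2
  have hinj : Function.Injective (algebraMap R K) := IsFractionRing.injective R K
  have hrz : ∀ j, h.natDegree < j → r j = 0 := by
    intro j hj
    apply hinj
    rw [hr', coeff_eq_zero_of_natDegree_lt hj, map_zero, zero_mul]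
  set s : R[X] := ∑ j ∈ Finset.range (h.natDegree + 1), monomial j (r j) with hs
  have hcoef : ∀ j, s.coeff j = r j := by
    intro j
    rw [hs, finsetSum_coeff]
    simp only [coeff_monomial]
    rw [Finset.sum_ite_eq']
    split_ifs with h1
    · rfl
    · rw [Finset.mem_range, not_lt] at h1
      exact (hrz j (by omega)).symm
  have hmap : (X * h - s).map (algebraMap R K) = (X - C t) * h.map (algebraMap R K) := by
    ext j
    rw [sub_mul, coeff_sub, coeff_C_mul, coeff_map, coeff_map, coeff_sub, hcoef, map_sub, hr']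
    cases j with
    | zero =>
      rw [coeff_X_mul_zero, coeff_X_mul_zero, map_zero]
      ring
    | succ j =>
      rw [coeff_X_mul, coeff_X_mul, coeff_map]
      ring
  refine ⟨X * h - s, ⟨?_, ?_⟩, hmap⟩
  · rw [SetLike.mem_coe, Ideal.mem_map_C_iff]
    intro j
    rw [coeff_sub, hcoef]
    refine sub_mem ?_ (hr j)
    cases j with
    | zero =>
      rw [coeff_X_mul_zero]
      exact b.zero_mem
    | succ j =>
      rw [coeff_X_mul]
      exact (hc j).1
  · rw [SetLike.mem_coe, RingHom.mem_ker]
    rw [aeval_def, ← eval_map, hmap, eval_mul, eval_sub, eval_X, eval_C, sub_self, zero_mul]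

theorem kerI_equiv (b : Ideal R) (hb : b.IsRadical) (t : K) :
    Nonempty (((ccI b t).map (C : R →+* R[X])) ≃ₗ[R[X]] (kerI b t)) := by
  have hinj : Function.Injective (algebraMap R K) := IsFractionRing.injective R K
  have hminj : Function.Injective (Polynomial.map (algebraMap R K)) := map_injective _ hinj
  have key1 : ∀ h : ((ccI b t).map (C : R →+* R[X])), ∃ g : kerI b t,
      (g : R[X]).map (algebraMap R K) = (X - C t) * (h : R[X]).map (algebraMap R K) := by
    intro h
    obtain ⟨g, hg, hg'⟩ := Ker2_exists b t h h.2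
    exact ⟨⟨g, hg⟩, hg'⟩
  choose F hF using key1
  have hne : (X - C t : K[X]) ≠ 0 := X_sub_C_ne_zero t
  let L : ((ccI b t).map (C : R →+* R[X])) →ₗ[R[X]] (kerI b t) :=
    { toFun := F
      map_add' := by
        intro x y
        apply Subtype.ext
        apply hminj
        rw [hF, Submodule.coe_add, Submodule.coe_add, Polynomial.map_add, Polynomial.map_add,
          hF, hF, mul_add]
      map_smul' := by
        intro m x
        apply Subtype.ext
        apply hminj
        rw [hF, RingHom.id_apply, Submodule.coe_smul, Submodule.coe_smul, smul_eq_mul, smul_eq_mul,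
          Polynomial.map_mul, Polynomial.map_mul, hF]
        ring }
  refine ⟨LinearEquiv.ofBijective L ⟨?_, ?_⟩⟩
  · intro x y hxy
    have h1 : F x = F y := hxy
    apply Subtype.ext
    apply hminj
    have h2 := hF x
    rw [h1, hF y] at h2
    exact (mul_left_cancel₀ hne h2).symm
  · intro g
    obtain ⟨h, hh, hh'⟩ := C2_coeff b hb t g g.2
    refine ⟨⟨h, hh⟩, ?_⟩
    apply Subtype.ext
    apply hminj
    have := hF ⟨h, hh⟩
    rw [hh']
    exact this

end CMT
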