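import Pool.Agent.H43.CM.C.Unif

/-!
# JOB CM-C09 : divisibility in a Noetherian normal domain is checked at height one primes (C5, N1)

Suppose `y ∤ x`.  The submodule `R x̄` of `R/yR` is nonzero, `R` is Noetherian, so it has an
associated prime: there are `r` and a prime `Q` with `Q = {a : y ∣ a r x}`, `y ∤ r x`. Put
`x' = r x`, `κ = x'/y ∈ Frac R`, `κ ∉ R`.  `Q ≠ 0` (`y ∈ Q`).  In `K`: `Q R_Q κ ⊆ R_Q`.
If `Q R_Q κ ⊆ Q R_Q` then `κ` is integral over `R_Q` (determinant trick,
`isIntegral_of_smul_mem_submodule`), `R_Q` is integrally closed, so `κ ∈ R_Q`, so `s x' ∈ y R` for some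
`s ∉ Q`, contradiction with the definition of `Q`.  So `Q R_Q κ = R_Q` and `Q R_Q` is principal,
nonzero, so `Q` has height `1` (`Ideal.height_le_one_of_isPrincipal_of_mem_minimalPrimes` in `R_Q`, and
`IsLocalization.AtPrime.ringKrullDim_eq_height`).  By hypothesis `y ∣ s x` with `s ∉ Q`, so
`y ∣ s x'`, so `s ∈ Q`, contradiction.
-/

noncomputable section

namespace CMT

variable {R : Type} [CommRing R] [IsDomain R] [IsIntegrallyClosed R] [IsNoetherianRing R]

omit [IsDomain R] [IsIntegrallyClosed R] [IsNoetherianRing R] in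
/-- the ideal of the `a` with `y ∣ a * x` -/
def N1_ann (x y : R) : Ideal R where
  carrier := {a | y ∣ a * x}
  add_mem' := by
    intro a b ha hb
    simp only [Set.mem_ofPred_eq] at *
    rw [add_mul]
    exact dvd_add ha hb
  zero_mem' := by simp
  smul_mem' := by
    intro c a ha
    simp only [Set.mem_ofPred_eq, smul_eq_mul] at *
    rw [mul_assoc]
    exact ha.mul_left c

omit [IsDomain R] [IsIntegrallyClosed R] [IsNoetherianRing R] in
theorem N1_mem {x y a : R} : a ∈ N1_ann x y ↔ y ∣ a * x := Iff.rfl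

omit [IsDomain R] [IsIntegrallyClosed R] in
theorem N1_prime (x y : R) (hx : ¬ y ∣ x) : ∃ r, (N1_ann (r * x) y).IsPrime := by
  have hne : ({J | ∃ r, ¬ y ∣ r * x ∧ J = N1_ann (r * x) y} : Set (Ideal R)).Nonempty :=
    ⟨N1_ann (1 * x) y, 1, by rwa [one_mul], rfl⟩
  obtain ⟨Q, ⟨r, hr, rfl⟩, hmax⟩ := set_has_maximal_iff_noetherian.2
    (inferInstanceAs (IsNoetherian R R)) _ hne
  refine ⟨r, ⟨?_, ?_⟩⟩
  · rw [Ne, Ideal.eq_top_iff_one, N1_mem, one_mul]
    exact hr
  · intro a b hab
    by_cases hb : b ∈ N1_ann (r * x) y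
    · exact Or.inr hb
    · left
      rw [N1_mem] at hb
      have h1 : N1_ann (b * r * x) y ∈
          ({J | ∃ r, ¬ y ∣ r * x ∧ J = N1_ann (r * x) y} : Set (Ideal R)) :=
        ⟨b * r, by rwa [mul_assoc], rfl⟩
      have h2 := hmax _ h1
      have h3 : N1_ann (r * x) y ≤ N1_ann (b * r * x) y := by
        intro c hc
        rw [N1_mem] at *
        have : c * (b * r * x) = b * (c * (r * x)) := by ring
        rw [this]
        exact hc.mul_left b
      have h4 : N1_ann (b * r * x) y ≤ N1_ann (r * x) y := by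
        by_contra hcon
        exact h2 (lt_of_le_not_ge h3 hcon)
      apply h4
      rw [N1_mem] at *
      have : a * (b * r * x) = a * b * (r * x) := by ring
      rw [this]
      exact hab

omit [IsIntegrallyClosed R] in
theorem N1_height (x y q₀ b₀ : R) (hy : y ≠ 0) (Q : Ideal R) (hQ : Q = N1_ann x y) (hP : Q.IsPrime)
    (hq : q₀ * x = y * b₀) (hb : b₀ ∉ Q) : Q.height = 1 := by
  have hq₀ : q₀ ∈ Q := by
    rw [hQ, N1_mem, hq]
    exact dvd_mul_right _ _
  have hyQ : y ∈ Q := by
    rw [hQ, N1_mem]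
    exact dvd_mul_right _ _
  have key : ∀ q ∈ Q, b₀ * q ∈ Ideal.span {q₀} := by
    intro q hq'
    rw [hQ, N1_mem] at hq'
    obtain ⟨b, hb'⟩ := hq'
    rw [Ideal.mem_span_singleton]
    refine ⟨b, ?_⟩
    apply mul_left_cancel₀ hy
    calc y * (b₀ * q) = (y * b₀) * q := by ring
      _ = q₀ * (q * x) := by rw [← hq]; ring
      _ = y * (q₀ * b) := by rw [hb']; ring
  have hmin : Q ∈ (Ideal.span {q₀}).minimalPrimes := by
    refine ⟨⟨hP, ?_⟩, ?_⟩
    · rw [Ideal.span_singleton_le_iff_mem]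
      exact hq₀
    · intro P hP' hPQ q hq'
      have h1 : b₀ * q ∈ P := hP'.2 (key q hq')
      rcases hP'.1.mem_or_mem h1 with h | h
      · exact absurd (hPQ h) hb
      · exact h
  apply le_antisymm
  · exact Ideal.height_le_one_of_isPrincipal_of_mem_minimalPrimes _ _ hmin
  · rw [Order.one_le_iff_ne_zero]
    intro h0
    have h1 : Q = ⊥ := Ideal.height_eq_zero_iff_eq_bot.1 h0
    rw [h1, Ideal.mem_bot] at hyQ
    exact hy hyQ

theorem N1 (x y : R) (hy : y ≠ 0)
    (h : ∀ Q : Ideal R, Q.IsPrime → Q.height = 1 → ∃ s, s ∉ Q ∧ y ∣ s * x) : y ∣ x := by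
  by_contra hx
  obtain ⟨r, hP⟩ := N1_prime x y hx
  set Q := N1_ann (r * x) y with hQ
  have h1 : (1 : R) ∉ Q := by
    intro h1
    exact hP.ne_top (Ideal.eq_top_of_isUnit_mem _ h1 isUnit_one)
  by_cases hcase : ∀ q ∈ Q, ∀ b, q * (r * x) = y * b → b ∈ Q
  · -- integral
    let K := FractionRing R
    have hinj : Function.Injective (algebraMap R K) := IsFractionRing.injective R K
    have hyK : algebraMap R K y ≠ 0 := by
      rw [Ne, map_eq_zero_iff _ hinj]
      exact hy
    have hyQ : y ∈ Q := dvd_mul_right _ _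
    let κ : K := algebraMap R K (r * x) / algebraMap R K y
    have hint : IsIntegral R κ := by
      refine isIntegral_of_smul_mem_submodule (Submodule.map (Algebra.linearMap R K) Q) ?_ ?_ κ ?_
      · intro hbot
        have h2 : algebraMap R K y ∈ Submodule.map (Algebra.linearMap R K) Q :=
          ⟨y, hyQ, rfl⟩
        rw [hbot, Submodule.mem_bot] at h2
        exact hyK h2
      · exact Submodule.FG.map _ (IsNoetherian.noetherian Q)
      · rintro _ ⟨q, hq, rfl⟩
        have hq' : y ∣ q * (r * x) := hq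
        obtain ⟨b, hb⟩ := hq'
        refine ⟨b, hcase q hq b hb, ?_⟩
        rw [Algebra.linearMap_apply, Algebra.linearMap_apply, smul_eq_mul, eq_comm, div_mul_eq_mul_div,
          div_eq_iff hyK, ← map_mul, ← map_mul, mul_comm (r * x), hb, mul_comm y]
    obtain ⟨z, hz⟩ := IsIntegrallyClosed.isIntegral_iff.1 hint
    apply h1
    show y ∣ 1 * (r * x)
    refine ⟨z, hinj ?_⟩
    rw [one_mul, map_mul (algebraMap R K) y z, hz]
    exact (mul_div_cancel₀ _ hyK).symm
  · push Not at hcase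
    obtain ⟨q₀, -, b₀, hq₀, hb₀⟩ := hcase
    have hh := N1_height (r * x) y q₀ b₀ hy Q hQ hP hq₀ hb₀
    obtain ⟨s, hs, hd⟩ := h Q hP hh
    apply hs
    show y ∣ s * (r * x)
    have : s * (r * x) = r * (s * x) := by ring
    rw [this]
    exact hd.mul_left r

end CMT
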