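import Pool.Agent.H43.CM.C.Val

/-!
# JOB CM-C04b : normality of `R[τ]` (Lemma N of helper15)

`R` and `B := R[τ⁻¹]` integrally closed (with fraction field `K`), `τ ≠ 0`.  Let
`f : K` be integral over `A := R[τ]` (`K` is a fraction field of `A` and of `B`: `isFractionRing_adj`;
it suffices to show: every `f : K` integral over `A` lies in `A`).
Step 1: `f = aeval τ p + aeval τ⁻¹ q` for polynomials `p, q` over `R`.  Indeed `f` satisfies a monic
equation of degree `n` with coefficients in `R[τ]`; for large `N` the coefficients `a_i` satisfy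
`τ^(-N) a_i ∈ B` for all `i`; multiply the equation by `τ^(-N n)`: `τ^(-N) f` is integral over `B`
(its equation has the coefficients `τ^(-N(n-i)) a_i ∈ B`, for `i < n`).  So `τ^(-N) f ∈ B`,
`f = τ^N * aeval τ⁻¹ r`, and splitting the powers `τ^(N - i)`, `i ≤ N` and `i > N`, gives `p` and `q`.
Step 2: `f' := f - aeval τ p = aeval τ⁻¹ q` is integral over `R[τ]` and lies in `R[τ⁻¹]`. Let `V` be a
valuation subring of `K` containing `R`.  If `τ ∈ V` then `R[τ] ⊆ V` and `f'` is integral over `V`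
so `f' ∈ V` (valuation rings are integrally closed: instance in `LocalSubring.lean`).  If `τ ∉ V`
then `τ⁻¹ ∈ V` so `f' ∈ R[τ⁻¹] ⊆ V`.  By `val_mem`, `f' ∈ R`, so `f ∈ R[τ]`.
-/

open Polynomial

noncomputable section

namespace CMT

variable {R : Type} [CommRing R] [IsDomain R] [IsIntegrallyClosed R] {K : Type} [Field K]
  [Algebra R K] [IsFractionRing R K]

omit [IsDomain R] [IsIntegrallyClosed R] [IsFractionRing R K] in
private theorem norm_adj_le (V : ValuationSubring K) (hR : ∀ r : R, algebraMap R K r ∈ V) {u : K}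
    (hu : u ∈ V) {y : K} (hy : y ∈ adj R u) : y ∈ V := by
  induction hy using Algebra.adjoin_induction with
  | mem x hx =>
    rw [Set.mem_singleton_iff] at hx
    rw [hx]
    exact hu
  | algebraMap r => exact hR r
  | add x y _ _ hx hy => exact V.add_mem _ _ hx hy
  | mul x y _ _ hx hy => exact V.mul_mem _ _ hx hy

omit [IsDomain R] [IsIntegrallyClosed R] [IsFractionRing R K] in
private theorem norm_shift {t : K} (ht : t ≠ 0) {a : K} (ha : a ∈ adj R t) :
    ∃ N : ℕ, ∀ M ≥ N, a * t⁻¹ ^ M ∈ adj R t⁻¹ := by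
  obtain ⟨q, rfl⟩ := (mem_adj_iff t a).1 ha
  refine ⟨q.natDegree, fun M hM => ?_⟩
  rw [Polynomial.aeval_eq_sum_range, Finset.sum_mul]
  refine Subalgebra.sum_mem _ (fun i hi => ?_)
  rw [Finset.mem_range] at hi
  have h1 : (q.coeff i • t ^ i) * t⁻¹ ^ M = q.coeff i • t⁻¹ ^ (M - i) := by
    rw [smul_mul_assoc]
    congr 1
    have h2 : t⁻¹ ^ M = t⁻¹ ^ i * t⁻¹ ^ (M - i) := by
      rw [← pow_add]
      congr 1
      omega
    rw [h2, ← mul_assoc, ← mul_pow, mul_inv_cancel₀ ht, one_pow, one_mul]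
  rw [h1]
  exact Subalgebra.smul_mem _ (Subalgebra.pow_mem _ (Algebra.self_mem_adjoin_singleton R t⁻¹) _) _

omit [IsDomain R] [IsIntegrallyClosed R] [IsFractionRing R K] in
private theorem norm_split {t : K} (ht : t ≠ 0) {b : K} (hb : b ∈ adj R t⁻¹) (N : ℕ) :
    ∃ x ∈ adj R t, ∃ y ∈ adj R t⁻¹, x + y = t ^ N * b := by
  obtain ⟨q, rfl⟩ := (mem_adj_iff t⁻¹ b).1 hb
  have hmem : t ^ N * Polynomial.aeval t⁻¹ q ∈
      Subalgebra.toSubmodule (adj R t) ⊔ Subalgebra.toSubmodule (adj R t⁻¹) := by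
    rw [Polynomial.aeval_eq_sum_range, Finset.mul_sum]
    refine Submodule.sum_mem _ (fun i _ => ?_)
    rw [mul_smul_comm]
    refine Submodule.smul_mem _ _ ?_
    rcases le_total i N with h | h
    · refine Submodule.mem_sup_left ?_
      have h1 : t ^ N * t⁻¹ ^ i = t ^ (N - i) := by
        have h2 : t ^ N = t ^ (N - i) * t ^ i := by
          rw [← pow_add]
          congr 1
          omega
        rw [h2, mul_assoc, ← mul_pow, mul_inv_cancel₀ ht, one_pow, mul_one]
      rw [h1, Subalgebra.mem_toSubmodule]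
      exact Subalgebra.pow_mem _ (Algebra.self_mem_adjoin_singleton R t) _
    · refine Submodule.mem_sup_right ?_
      have h1 : t ^ N * t⁻¹ ^ i = t⁻¹ ^ (i - N) := by
        have h2 : t⁻¹ ^ i = t⁻¹ ^ N * t⁻¹ ^ (i - N) := by
          rw [← pow_add]
          congr 1
          omega
        rw [h2, ← mul_assoc, ← mul_pow, mul_inv_cancel₀ ht, one_pow, one_mul]
      rw [h1, Subalgebra.mem_toSubmodule]
      exact Subalgebra.pow_mem _ (Algebra.self_mem_adjoin_singleton R t⁻¹) _
  obtain ⟨x, hx, y, hy, hxy⟩ := Submodule.mem_sup.1 hmem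
  exact ⟨x, hx, y, hy, hxy⟩

omit [IsDomain R] [IsIntegrallyClosed R] [IsFractionRing R K] in
private theorem norm_integral {t : K} (ht : t ≠ 0) {f : K} (hf : IsIntegral (adj R t) f) :
    ∃ N : ℕ, IsIntegral (adj R t⁻¹) (f * t⁻¹ ^ N) := by
  obtain ⟨p, hp, hpf⟩ := hf
  choose g hg using fun i : ℕ => norm_shift ht (p.coeff i).2
  set N : ℕ := (Finset.range (p.natDegree + 1)).sup g with hN
  refine ⟨N, ?_⟩
  set P : K[X] := (p.map (algebraMap (adj R t) K)).scaleRoots (t⁻¹ ^ N) with hP
  have hPm : P.Monic := (Polynomial.monic_scaleRoots_iff _).2 (hp.map _)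
  have hdeg : (p.map (algebraMap (adj R t) K)).natDegree = p.natDegree := hp.natDegree_map _
  have hPl : P ∈ Polynomial.lifts (algebraMap (adj R t⁻¹) K) := by
    rw [Polynomial.lifts_iff_coeff_lifts]
    intro i
    rw [hP, Polynomial.coeff_scaleRoots, hdeg, Polynomial.coeff_map, ← pow_mul]
    rcases lt_trichotomy i p.natDegree with h | h | h
    · have h1 : g i ≤ N := Finset.le_sup (Finset.mem_range.2 (by omega))
      have h2 : g i ≤ N * (p.natDegree - i) := h1.trans (Nat.le_mul_of_pos_right _ (by omega))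
      exact ⟨⟨_, hg i _ h2⟩, rfl⟩
    · refine ⟨1, ?_⟩
      rw [h, hp.coeff_natDegree, map_one, map_one, Nat.sub_self, Nat.mul_zero, pow_zero, mul_one]
    · refine ⟨0, ?_⟩
      rw [Polynomial.coeff_eq_zero_of_natDegree_lt h, map_zero, map_zero, zero_mul]
  obtain ⟨q, hq1, _, hq3⟩ := Polynomial.lifts_and_natDegree_eq_and_monic hPl hPm
  refine ⟨q, hq3, ?_⟩
  rw [← Polynomial.eval_map, hq1, hP, mul_comm]
  have h0 : (p.map (algebraMap (adj R t) K)).eval f = 0 := by
    rw [Polynomial.eval_map]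
    exact hpf
  have h1 := Polynomial.scaleRoots_eval₂_mul (p := p.map (algebraMap (adj R t) K))
    (RingHom.id K) f (t⁻¹ ^ N)
  rw [RingHom.id_apply, Polynomial.eval₂_id, Polynomial.eval₂_id, h0, mul_zero] at h1
  exact h1

theorem normal_adj (t : K) (ht : t ≠ 0) (h : IsIntegrallyClosed (adj R t⁻¹)) :
    IsIntegrallyClosed (adj R t) := by
  have hA : IsFractionRing (adj R t) K := isFractionRing_adj t
  have hB : IsFractionRing (adj R t⁻¹) K := isFractionRing_adj t⁻¹
  rw [isIntegrallyClosed_iff K]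
  intro f hf
  obtain ⟨N, hN⟩ := norm_integral ht hf
  obtain ⟨y, hy⟩ := (isIntegrallyClosed_iff K).1 h hN
  obtain ⟨a, ha, b, hb, hab⟩ := norm_split ht y.2 N
  have hfab : a + b = f := by
    rw [hab]
    have h1 : (y : K) = f * t⁻¹ ^ N := hy
    rw [h1, mul_comm f, ← mul_assoc, ← mul_pow, mul_inv_cancel₀ ht, one_pow, one_mul]
  have hbi : IsIntegral (adj R t) b := by
    have h1 : b = f - algebraMap (adj R t) K ⟨a, ha⟩ := by
      rw [← hfab]
      exact (add_sub_cancel_left a b).symm
    rw [h1]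
    exact hf.sub isIntegral_algebraMap
  have hbR : ∃ r : R, algebraMap R K r = b := by
    refine val_mem b (fun V hV => ?_)
    rcases V.mem_or_inv_mem t with h1 | h1
    · let φ : adj R t →+* V :=
        { toFun := fun x => ⟨x.1, norm_adj_le V hV h1 x.2⟩
          map_one' := rfl
          map_mul' := fun _ _ => rfl
          map_zero' := rfl
          map_add' := fun _ _ => rfl }
      have h2 : IsIntegral V ((RingHom.id K) b) :=
        hbi.map_of_comp_eq φ (RingHom.id K) (RingHom.ext fun _ => rfl)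
      obtain ⟨z, hz⟩ := (IsIntegrallyClosed.isIntegral_iff (R := V) (K := K)).1 h2
      have h3 : b = z := hz.symm
      rw [h3]
      exact z.2
    · exact norm_adj_le V hV h1 hb
  obtain ⟨r, hr⟩ := hbR
  refine ⟨⟨a, ha⟩ + algebraMap R (adj R t) r, ?_⟩
  rw [map_add, ← IsScalarTower.algebraMap_apply, hr]
  exact hfab

end CMT
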