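import Pool.Agent.H43.CM.C.Ker2
import Pool.Agent.H43.CM.C.DepPoly

/-!
# JOB CM-C06 : `R[τ⁻¹]/(τ⁻¹) = R/L1` and the surjection `R[X] → R[τ]`  (C3)

`L1 = ccI ⊤ τ = {a : a τ ∈ R}`.
* `surj3`: an element of `R[τ⁻¹]` is `aeval τ⁻¹ p`, congruent to `p.coeff 0` modulo `τ⁻¹`.
* `ker3`: `a ∈ R` is in `τ⁻¹ R[τ⁻¹]` iff `a τ ∈ R[τ⁻¹]`, iff (as also `a τ ∈ R[τ]`) `a τ ∈ R`
  by `C1_adj`.
* `evT`: the surjection `R[X] → R[τ]`; its kernel is `kerI ⊤ τ`.
* `comap_adjI`: `n` maximal, `(n, τ) ≠ R[τ]`: the preimage of `(n, τ)` in `R[X]` is a proper ideal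
  containing `(n, X)`, which is maximal (`R[X]/(n, X) = R/n` is a field).
-/

open Polynomial

noncomputable section

namespace CMT

variable {R : Type} [CommRing R] [IsDomain R] [IsIntegrallyClosed R] {K : Type} [Field K]
  [Algebra R K] [IsFractionRing R K]

omit [IsDomain R] [IsIntegrallyClosed R] [IsFractionRing R K] in
private theorem quotInv_coe (t : K) (p : R[X]) :
    ((Polynomial.aeval (tt R t) p : adj R t) : K) = Polynomial.aeval t p :=
  (Polynomial.aeval_algHom_apply (adj R t).val (tt R t) p).symm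

omit [IsDomain R] [IsIntegrallyClosed R] [IsFractionRing R K] in
private theorem quotInv_exists (t : K) (y : adj R t) :
    ∃ p : R[X], Polynomial.aeval (tt R t) p = y := by
  obtain ⟨p, hp⟩ := (mem_adj_iff t (y : K)).1 y.2
  exact ⟨p, Subtype.ext (by rw [quotInv_coe, hp])⟩

omit [IsDomain R] [IsIntegrallyClosed R] [IsFractionRing R K] in
theorem surj3 (t : K) : Function.Surjective
    ((Ideal.Quotient.mk (Ideal.span {tt R t⁻¹})).comp (algebraMap R (adj R t⁻¹))) := by
  intro z
  obtain ⟨y, rfl⟩ := Ideal.Quotient.mk_surjective z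
  obtain ⟨p, hp⟩ := quotInv_exists t⁻¹ y
  refine ⟨p.coeff 0, ?_⟩
  rw [RingHom.comp_apply, Ideal.Quotient.eq]
  have h1 : y = Polynomial.aeval (tt R t⁻¹) p.divX * tt R t⁻¹ +
      algebraMap R (adj R t⁻¹) (p.coeff 0) := by
    rw [← hp]
    conv_lhs => rw [← Polynomial.divX_mul_X_add p]
    rw [map_add, map_mul, Polynomial.aeval_X, Polynomial.aeval_C]
  rw [Ideal.mem_span_singleton']
  refine ⟨- Polynomial.aeval (tt R t⁻¹) p.divX, ?_⟩
  rw [h1]
  ring

theorem ker3 (t : K) (ht : t ≠ 0) : RingHom.ker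
    ((Ideal.Quotient.mk (Ideal.span {tt R t⁻¹})).comp (algebraMap R (adj R t⁻¹))) =
      ccI (⊤ : Ideal R) t := by
  ext a
  rw [RingHom.mem_ker, RingHom.comp_apply, Ideal.Quotient.eq_zero_iff_mem,
    Ideal.mem_span_singleton']
  constructor
  · rintro ⟨z, hz⟩
    have hz' : (z : K) * t⁻¹ = algebraMap R K a := congrArg (fun w : adj R t⁻¹ => (w : K)) hz
    have hz2 : (z : K) = algebraMap R K a * t := by
      rw [← hz', mul_assoc, inv_mul_cancel₀ ht, mul_one]
    have h2 : algebraMap R K a * t ∈ adj R t⁻¹ := hz2 ▸ z.2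
    have h1 : algebraMap R K a * t ∈ adj R t :=
      (adj R t).mul_mem ((adj R t).algebraMap_mem a) (Algebra.self_mem_adjoin_singleton R t)
    obtain ⟨r, hr⟩ := C1_adj t _ h1 h2
    exact ⟨Submodule.mem_top, r, Submodule.mem_top, hr⟩
  · rintro ⟨-, r, -, hr⟩
    refine ⟨algebraMap R (adj R t⁻¹) r, Subtype.ext ?_⟩
    change algebraMap R K r * t⁻¹ = algebraMap R K a
    rw [hr, mul_assoc, mul_inv_cancel₀ ht, mul_one]

/-- `R[X] → R[τ]` -/
def evT (R : Type) [CommRing R] {K : Type} [Field K] [Algebra R K] (t : K) : R[X] →ₐ[R] adj R t :=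
  Polynomial.aeval (tt R t)

omit [IsDomain R] [IsIntegrallyClosed R] [IsFractionRing R K] in
theorem evT_surjective (t : K) : Function.Surjective (evT R t) := fun y => quotInv_exists t y

omit [IsDomain R] [IsIntegrallyClosed R] [IsFractionRing R K] in
theorem ker_evT (t : K) : RingHom.ker (evT R t) = kerI (⊤ : Ideal R) t := by
  unfold kerI
  rw [Ideal.map_top, top_inf_eq]
  ext p
  rw [RingHom.mem_ker, RingHom.mem_ker, ← quotInv_coe t p]
  exact Subtype.ext_iff

omit [IsDomain R] [IsIntegrallyClosed R] in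
private theorem quotInv_maximal (n : Ideal R) [n.IsMaximal] :
    (n.map (C : R →+* R[X]) ⊔ Ideal.span {X}).IsMaximal := by
  have hs : Function.Surjective (Polynomial.constantCoeff : R[X] →+* R) := fun r =>
    ⟨C r, by simp⟩
  have he : n.map (C : R →+* R[X]) ⊔ Ideal.span {X} =
      n.comap (Polynomial.constantCoeff : R[X] →+* R) := by
    apply le_antisymm
    · refine sup_le ?_ ?_
      · rw [Ideal.map_le_iff_le_comap]
        intro a ha
        rw [Ideal.mem_comap, Ideal.mem_comap]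
        simpa using ha
      · rw [Ideal.span_le, Set.singleton_subset_iff]
        change Polynomial.constantCoeff (X : R[X]) ∈ n
        simp
    · intro f hf
      rw [Ideal.mem_comap] at hf
      rw [← Polynomial.divX_mul_X_add f]
      refine Ideal.add_mem _ (Ideal.mul_mem_left _ _ ?_) ?_
      · exact Ideal.mem_sup_right (Ideal.mem_span_singleton_self X)
      · exact Ideal.mem_sup_left (Ideal.mem_map_of_mem _ hf)
  rw [he]
  exact Ideal.comap_isMaximal_of_surjective _ hs

omit [IsDomain R] [IsIntegrallyClosed R] [IsFractionRing R K] in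
theorem map_adjI (n : Ideal R) (t : K) :
    (n.map (C : R →+* R[X]) ⊔ Ideal.span {X}).map (evT R t : R[X] →+* adj R t) = adjI n t := by
  have h1 : (evT R t : R[X] →+* adj R t).comp (C : R →+* R[X]) = algebraMap R (adj R t) := by
    ext r
    simp [evT]
  have h2 : (evT R t : R[X] →+* adj R t) X = tt R t := by
    simp [evT]
  rw [Ideal.map_sup, Ideal.map_map, h1, Ideal.map_span, Set.image_singleton, h2]
  rfl

omit [IsDomain R] [IsIntegrallyClosed R] [IsFractionRing R K] in
theorem comap_adjI (n : Ideal R) [n.IsMaximal] (t : K) (h : adjI n t ≠ ⊤) :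
    (adjI n t).comap (evT R t) = n.map (C : R →+* R[X]) ⊔ Ideal.span {X} := by
  have hm := quotInv_maximal (R := R) n
  refine (hm.eq_of_le (Ideal.comap_ne_top _ h) ?_).symm
  have h2 := map_adjI n t
  have h3 := Ideal.le_comap_of_map_le h2.le
  exact h3

end CMT
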