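import Pool.Agent.H43.CM.C.DepRing

/-!
# Definitions for `R[τ]` (PART C of the blueprint)
-/

open Polynomial

noncomputable section

namespace CMT

variable {R : Type} [CommRing R] {K : Type} [Field K] [Algebra R K]

/-- `R[τ] ⊆ K` -/
abbrev adj (R : Type) [CommRing R] {K : Type} [Field K] [Algebra R K] (t : K) : Subalgebra R K :=
  Algebra.adjoin R {t}

/-- the element `τ` of `R[τ]` -/
def tt (R : Type) [CommRing R] {K : Type} [Field K] [Algebra R K] (t : K) : adj R t :=
  ⟨t, Algebra.self_mem_adjoin_singleton R t⟩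

/-- the ideal `(n, τ)` of `R[τ]` -/
def adjI (n : Ideal R) (t : K) : Ideal (adj R t) :=
  n.map (algebraMap R (adj R t)) ⊔ Ideal.span {tt R t}

/-- `{c ∈ b : c τ ∈ b}` -/
def ccI (b : Ideal R) (t : K) : Ideal R where
  carrier := {c | c ∈ b ∧ ∃ r ∈ b, algebraMap R K r = algebraMap R K c * t}
  add_mem' := by
    rintro x y ⟨hx, r, hr, hr'⟩ ⟨hy, s, hs, hs'⟩
    exact ⟨b.add_mem hx hy, r + s, b.add_mem hr hs, by rw [map_add, map_add, hr', hs']; ring⟩
  zero_mem' := ⟨b.zero_mem, 0, b.zero_mem, by simp⟩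
  smul_mem' := by
    rintro c x ⟨hx, r, hr, hr'⟩
    refine ⟨b.smul_mem c hx, c * r, b.mul_mem_left c hr, ?_⟩
    rw [smul_eq_mul, map_mul, map_mul, hr']; ring

/-- the polynomials with coefficients in `b` that vanish at `τ` -/
def kerI (b : Ideal R) (t : K) : Ideal R[X] :=
  b.map (C : R →+* R[X]) ⊓ RingHom.ker (Polynomial.aeval (R := R) t)

end CMT
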