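import Mathlib

/-!
# JOB CM-C08 : height one primes of a Noetherian normal domain, uniformizers

`R` Noetherian integrally closed domain.
* `dvr_height_one`: `R_Q` is a Noetherian local integrally closed domain of Krull dimension `1`
  (`IsLocalization.AtPrime.ringKrullDim_eq_height`), use
  `tfae_of_isNoetherianRing_of_isLocalRing_of_isDomain` or
  `IsLocalization.AtPrime.isDiscreteValuationRing...`.
* `exists_unif`: clear denominators of a uniformizer of `R_Q`.
* `unif_of_sq`: `β ∈ Q` with `h β ∉ Q²` for all `h ∉ Q`: the image of `β` in `R_Q` is in the maximal ideal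
  `𝔪` and not in `𝔪²` (`𝔪² = Q² R_Q`), so it generates `𝔪` (`R_Q` a DVR); so every `x ∈ Q` is a multiple of `β`
  in `R_Q`, i.e. `s x ∈ β R` for some `s ∉ Q`.
-/

noncomputable section

namespace CMT

variable {R : Type} [CommRing R] [IsDomain R] [IsIntegrallyClosed R] [IsNoetherianRing R]

theorem dvr_height_one (Q : Ideal R) [Q.IsPrime] (hQ : Q.height = 1) :
    IsDiscreteValuationRing (Localization.AtPrime Q) := by
  have hdim : ringKrullDim (Localization.AtPrime Q) = 1 := by
    rw [IsLocalization.AtPrime.ringKrullDim_eq_height Q, hQ]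
    rfl
  have hN : IsNoetherianRing (Localization.AtPrime Q) :=
    IsLocalization.isNoetherianRing Q.primeCompl _ inferInstance
  have hI : IsIntegrallyClosed (Localization.AtPrime Q) :=
    isIntegrallyClosed_of_isLocalization _ Q.primeCompl (Ideal.primeCompl_le_nonZeroDivisors Q)
  obtain ⟨hF, hP⟩ := ringKrullDim_eq_one_iff_of_isLocalRing_isDomain.1 hdim
  have hm : IsLocalRing.maximalIdeal (Localization.AtPrime Q) ≠ ⊥ :=
    IsLocalRing.isField_iff_maximalIdeal_eq.not.mp hF
  have h4 : IsIntegrallyClosed (Localization.AtPrime Q) ∧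
      ∃! P : Ideal (Localization.AtPrime Q), P ≠ ⊥ ∧ P.IsPrime := by
    refine ⟨hI, IsLocalRing.maximalIdeal _, ⟨hm, inferInstance⟩, ?_⟩
    rintro P ⟨h1, h2⟩
    have hmax : P.IsMaximal :=
      Ring.krullDimLE_one_iff_of_noZeroDivisors.mp (Ring.krullDimLE_iff.mpr (by simp [hdim]))
        P h1 h2
    exact IsLocalRing.eq_maximalIdeal hmax
  exact ((IsDiscreteValuationRing.TFAE (Localization.AtPrime Q) hF).out 0 3).2 h4

theorem exists_unif (Q : Ideal R) [Q.IsPrime] (hQ : Q.height = 1) :
    ∃ p ∈ Q, ∀ x ∈ Q, ∃ s, s ∉ Q ∧ p ∣ s * x := by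
  have := dvr_height_one Q hQ
  obtain ⟨ϖ, hϖ⟩ := IsDiscreteValuationRing.exists_irreducible (Localization.AtPrime Q)
  obtain ⟨a, s, rfl⟩ := IsLocalization.exists_mk'_eq Q.primeCompl ϖ
  have hmax := hϖ.maximalIdeal_eq
  have hu : IsUnit (algebraMap R (Localization.AtPrime Q) s) :=
    IsLocalization.map_units _ s
  have hspan : IsLocalRing.maximalIdeal (Localization.AtPrime Q)
      = Ideal.span {algebraMap R (Localization.AtPrime Q) a} := by
    rw [hmax]
    apply Ideal.span_singleton_eq_span_singleton.2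
    refine ⟨hu.unit, ?_⟩
    show IsLocalization.mk' (Localization.AtPrime Q) a s * algebraMap R _ s = _
    exact IsLocalization.mk'_spec _ a s
  refine ⟨a, ?_, fun x hx => ?_⟩
  · rw [← IsLocalization.AtPrime.to_map_mem_maximal_iff (Localization.AtPrime Q) Q, hspan]
    exact Ideal.mem_span_singleton_self _
  · have hx' : algebraMap R (Localization.AtPrime Q) x
        ∈ IsLocalRing.maximalIdeal (Localization.AtPrime Q) :=
      (IsLocalization.AtPrime.to_map_mem_maximal_iff (Localization.AtPrime Q) Q x).2 hx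
    rw [hspan, Ideal.mem_span_singleton] at hx'
    obtain ⟨c, hc⟩ := hx'
    obtain ⟨b, t, rfl⟩ := IsLocalization.exists_mk'_eq Q.primeCompl c
    refine ⟨t, t.2, b, ?_⟩
    apply FaithfulSMul.algebraMap_injective R (Localization.AtPrime Q)
    rw [map_mul, map_mul, hc, mul_comm, mul_assoc, IsLocalization.mk'_spec]

theorem unif_of_sq (Q : Ideal R) [Q.IsPrime] (hQ : Q.height = 1) (β : R) (hβ : β ∈ Q)
    (h : ∀ s, s ∉ Q → s * β ∉ Q ^ 2) : ∀ x ∈ Q, ∃ s, s ∉ Q ∧ β ∣ s * x := by
  obtain ⟨p, hp, hx⟩ := exists_unif Q hQ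
  intro x hxQ
  obtain ⟨s, hs, r, hr⟩ := hx β hβ
  obtain ⟨t, ht, y, hy⟩ := hx x hxQ
  have hrQ : r ∉ Q := by
    intro hrQ
    refine h s hs ?_
    rw [hr, pow_two]
    exact Ideal.mul_mem_mul hp hrQ
  refine ⟨r * t, fun hc => ?_, s * y, ?_⟩
  · rcases (inferInstance : Q.IsPrime).mem_or_mem hc with h1 | h1
    · exact hrQ h1
    · exact ht h1
  · calc r * t * x = r * (t * x) := by ring
      _ = y * (p * r) := by rw [hy]; ring
      _ = β * (s * y) := by rw [← hr]; ring

end CMT
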