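import Pool.Agent.H43.CM.C.Tau

/-!
# JOB CM-C04 : valuation subrings, `R[τ]` as polynomials in `τ`

* `val_mem`: `Subring.eq_iInf_of_isIntegrallyClosedIn` or `iInf_valuationSubring_superset`
  (file `Mathlib/RingTheory/Valuation/LocalSubring.lean`): the intersection of the valuation subrings
  of `K` containing the image of `R` is the integral closure of `R` in `K`, which is the image of `R`.
* `mem_adj_iff`: `Algebra.adjoin_singleton_eq_range_aeval`.
* `isFractionRing_adj`: every element of `K` is a quotient of two elements of `R ⊆ R[τ]`.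
* `normal_of_poly`: if `y` in the fraction field `K` of `R` is integral over `R`, then its image in the
  fraction field of `R[X]` (or: `C y` in `K[X]`) is integral over `R[X]`, so it lies in `R[X]`, and has
  degree `0` (compare with `K[X]`).
-/

open Polynomial

noncomputable section

namespace CMT

variable {R : Type} [CommRing R] [IsDomain R] [IsIntegrallyClosed R] {K : Type} [Field K]
  [Algebra R K] [IsFractionRing R K]

omit [IsDomain R] in
theorem val_mem (y : K) (h : ∀ V : ValuationSubring K, (∀ r : R, algebraMap R K r ∈ V) → y ∈ V) :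
    ∃ r : R, algebraMap R K r = y := by
  let A : Subring K := (algebraMap R K).range
  let iA : Algebra R A := (algebraMap R K).rangeRestrict.toAlgebra
  have iT : IsScalarTower R A K := IsScalarTower.of_algebraMap_eq fun _ => rfl
  have iI : Algebra.IsIntegral R A := by
    refine ⟨?_⟩
    rintro ⟨_, r, rfl⟩
    exact isIntegral_algebraMap (R := R) (x := r)
  have hA : IsIntegrallyClosedIn A K := by
    refine Subring.isIntegrallyClosedIn_iff.mpr fun x hx => ?_
    have h1 : IsIntegral R x := isIntegral_trans x hx
    exact IsIntegrallyClosed.isIntegral_iff.mp h1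
  by_contra hy
  have hyA : y ∉ A := fun h => hy h
  obtain ⟨V, hV, hyV⟩ := Subring.exists_le_valuationSubring_of_isIntegrallyClosedIn hyA
  exact hyV (h V fun r => hV ⟨r, rfl⟩)

omit [IsDomain R] [IsIntegrallyClosed R] [IsFractionRing R K] in
theorem mem_adj_iff (t y : K) : y ∈ adj R t ↔ ∃ p : R[X], Polynomial.aeval t p = y := by
  unfold adj
  rw [Algebra.adjoin_singleton_eq_range_aeval]
  exact AlgHom.mem_range _

omit [IsIntegrallyClosed R] in
/-- `K` is a fraction field of `R[τ]` -/
theorem isFractionRing_adj (t : K) : IsFractionRing (adj R t) K := by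
  have hinj : Function.Injective (algebraMap (adj R t) K) := Subtype.val_injective
  constructor
  constructor
  · rintro ⟨y, hy⟩
    rw [isUnit_iff_ne_zero, Ne, map_eq_zero_iff _ hinj]
    exact nonZeroDivisors.ne_zero hy
  · intro z
    obtain ⟨a, b, hb, hz⟩ := IsFractionRing.div_surjective (A := R) z
    have hb0 : algebraMap R K b ≠ 0 :=
      (map_ne_zero_iff _ (IsFractionRing.injective R K)).2 (nonZeroDivisors.ne_zero hb)
    have hb1 : algebraMap R (adj R t) b ≠ 0 := by
      intro h
      exact hb0 (congrArg Subtype.val h)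
    refine ⟨(algebraMap R (adj R t) a, ⟨algebraMap R (adj R t) b,
      mem_nonZeroDivisors_of_ne_zero hb1⟩), ?_⟩
    show z * algebraMap R K b = algebraMap R K a
    rw [← hz, div_mul_cancel₀ _ hb0]
  · intro x y hxy
    exact ⟨1, by rw [hinj hxy]⟩

end CMT

namespace CMT

theorem normal_of_poly {R : Type} [CommRing R] [IsDomain R] (h : IsIntegrallyClosed R[X]) :
    IsIntegrallyClosed R := by
  let K := FractionRing R
  let L := FractionRing R[X]
  let g : R →+* L := (algebraMap R[X] L).comp C
  have hg : Function.Injective g :=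
    (IsFractionRing.injective R[X] L).comp Polynomial.C_injective
  let φ : K →+* L := IsFractionRing.lift hg
  have hφ : ∀ r : R, φ (algebraMap R K r) = algebraMap R[X] L (C r) := fun r =>
    IsFractionRing.lift_algebraMap hg r
  refine (isIntegrallyClosed_iff K).2 fun {x} hx => ?_
  have h1 : IsIntegral R[X] (φ x) := by
    refine IsIntegral.map_of_comp_eq (C : R →+* R[X]) φ ?_ hx
    ext r
    exact (hφ r).symm
  obtain ⟨p, hp⟩ := IsIntegrallyClosed.isIntegral_iff.mp h1
  obtain ⟨a, b, hb, hz⟩ := IsFractionRing.div_surjective (A := R) x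
  have hb0 : algebraMap R K b ≠ 0 :=
    (map_ne_zero_iff _ (IsFractionRing.injective R K)).2 (nonZeroDivisors.ne_zero hb)
  have h2 : x * algebraMap R K b = algebraMap R K a := by
    rw [← hz, div_mul_cancel₀ _ hb0]
  have h3 : p * C b = C a := by
    apply IsFractionRing.injective R[X] L
    rw [map_mul, hp, ← hφ, ← hφ, ← map_mul, h2]
  have h4 : p.coeff 0 * b = a := by
    have := congrArg (fun q => q.coeff 0) h3
    simpa using this
  refine ⟨p.coeff 0, ?_⟩
  apply mul_right_cancel₀ hb0
  rw [h2, ← map_mul, h4]

end CMT
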